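import Pool.Agent.Helper77K9.SV.Null

/-! The norm of the image of a fixed vector under the inverse of a Gaussian matrix. -/

set_option autoImplicit false

open MeasureTheory ProbabilityTheory Set
open scoped ENNReal NNReal RealInnerProductSpace

namespace Pool.Agent.Helper77K9.SV

variable {n : ℕ}

/-- The truncated monotone function of the one dimensional comparison. -/
noncomputable def FF (κ s : ℝ) : ℝ≥0∞ := if s = 0 then 0 else ENNReal.ofReal (Real.exp (-(κ / s ^ 2)))

theorem measurable_FF (κ : ℝ) : Measurable (FF κ) := by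
  unfold FF
  refine Measurable.ite (measurableSet_singleton 0) measurable_const ?_
  fun_prop

theorem FF_mono {κ : ℝ} (hκ : 0 ≤ κ) (x y : ℝ) (h : |x| ≤ |y|) : FF κ x ≤ FF κ y := by
  unfold FF
  by_cases hx : x = 0
  · rw [if_pos hx]; exact zero_le
  · have hx2 : 0 < x ^ 2 := by positivity
    have h2 : x ^ 2 ≤ y ^ 2 := sq_le_sq.2 h
    have hy : y ≠ 0 := by
      rintro rfl
      rw [abs_zero] at h
      exact hx (abs_nonpos_iff.1 h)
    rw [if_neg hx, if_neg hy]
    apply ENNReal.ofReal_le_ofReal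
    apply Real.exp_le_exp.2
    apply neg_le_neg
    exact div_le_div_of_nonneg_left hκ hx2 h2

/-- The matrix whose columns are the vectors. -/
def Mt (A : Fin n → EE n) : Matrix (Fin n) (Fin n) ℝ := (Matrix.of fun i j => A i j).transpose

theorem det_Mt (A : Fin n → EE n) : (Mt A).det = D n A := by
  unfold Mt
  rw [Matrix.det_transpose, D_eq]

theorem Mt_mulVec (A : Fin n → EE n) (y : Fin n → ℝ) (j : Fin n) :
    (Mt A).mulVec y j = (∑ i, y i • A i) j := by
  simp only [Matrix.mulVec, dotProduct, Mt, Matrix.transpose_apply, Matrix.of_apply,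
    WithLp.ofLp_sum, WithLp.ofLp_smul, Finset.sum_apply, Pi.smul_apply, smul_eq_mul]
  exact Finset.sum_congr rfl fun i _ => mul_comm _ _

/-- The square of the norm of the solution `y` of `∑ y_i A_i = z`. -/
noncomputable def hh (z : Fin n → ℝ) (A : Fin n → EE n) : ℝ := ∑ i, ((Mt A)⁻¹.mulVec z i) ^ 2

theorem hh_nonneg (z : Fin n → ℝ) (A : Fin n → EE n) : 0 ≤ hh z A :=
  Finset.sum_nonneg fun _ _ => sq_nonneg _

theorem hh_of_D_eq_zero (z : Fin n → ℝ) (A : Fin n → EE n) (h : D n A = 0) : hh z A = 0 := by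
  unfold hh
  rw [Matrix.nonsing_inv_apply_not_isUnit _ (by rw [det_Mt, h]; simp)]
  simp

theorem hh_eq (z y : Fin n → ℝ) (A : Fin n → EE n) (h : D n A ≠ 0)
    (hy : ∑ i, y i • A i = WithLp.toLp 2 z) : hh z A = ∑ i, y i ^ 2 := by
  have hu : IsUnit (Mt A).det := by rw [det_Mt]; exact isUnit_iff_ne_zero.2 h
  have h1 : (Mt A).mulVec y = z := by
    ext j
    rw [Mt_mulVec, hy]
  unfold hh
  rw [← h1, Matrix.mulVec_mulVec, Matrix.nonsing_inv_mul _ hu, Matrix.one_mulVec]

theorem measurable_hh : Measurable fun p : (Fin n → ℝ) × (Fin n → EE n) => hh p.1 p.2 := by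
  unfold hh
  have hMt : Continuous fun p : (Fin n → ℝ) × (Fin n → EE n) => Mt p.2 := by
    refine continuous_matrix fun i j => ?_
    simp only [Mt, Matrix.transpose_apply, Matrix.of_apply]
    fun_prop
  have hinv : ∀ i j, Measurable fun p : (Fin n → ℝ) × (Fin n → EE n) => (Mt p.2)⁻¹ i j := by
    intro i j
    have : (fun p : (Fin n → ℝ) × (Fin n → EE n) => (Mt p.2)⁻¹ i j) =
        fun p => ((Mt p.2).det)⁻¹ * (Mt p.2).adjugate i j := by
      funext p
      rw [Matrix.inv_def, Ring.inverse_eq_inv', Matrix.smul_apply, smul_eq_mul]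
    rw [this]
    exact (hMt.matrix_det.measurable.inv).mul (hMt.matrix_adjugate.matrix_elem i j).measurable
  refine Finset.measurable_sum _ fun i _ => Measurable.pow_const ?_ 2
  simp only [Matrix.mulVec, dotProduct]
  refine Finset.measurable_sum _ fun j _ => (hinv i j).mul ?_
  fun_prop

theorem measurable_hh_left (z : Fin n → ℝ) : Measurable fun A : Fin n → EE n => hh z A := by
  have h : Measurable fun A : Fin n → EE n => ((z, A) : (Fin n → ℝ) × (Fin n → EE n)) :=
    measurable_prodMk_left
  have h2 := Measurable.comp (g := fun p : (Fin n → ℝ) × (Fin n → EE n) => hh p.1 p.2)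
    (f := fun A : Fin n → EE n => ((z, A) : (Fin n → ℝ) × (Fin n → EE n))) measurable_hh h
  simpa only [Function.comp_def] using h2

theorem measurable_exp_hh (z : Fin n → ℝ) (τ : ℝ) :
    Measurable fun A : Fin n → EE n => ENNReal.ofReal (Real.exp (-(τ * hh z A))) := by
  have := measurable_hh_left (n := n) z
  fun_prop

/-- invariance of a power of a measure under transposition -/
theorem swap_pi (n : ℕ) :
    (Measure.pi fun _ : Fin n => Measure.pi fun _ : Fin n => gaussianReal 0 1).map
      (fun (x : Fin n → Fin n → ℝ) i j => x j i) =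
    Measure.pi fun _ : Fin n => Measure.pi fun _ : Fin n => gaussianReal 0 1 := by
  let P2 : Measure (Fin n × Fin n → ℝ) :=
    Measure.infinitePi fun _ : Fin n × Fin n => gaussianReal 0 1
  have h1 : (Measure.pi fun _ : Fin n => Measure.pi fun _ : Fin n => gaussianReal 0 1) =
      P2.map (MeasurableEquiv.curry (Fin n) (Fin n) ℝ) := by
    have h := Measure.infinitePi_map_curry (fun _ _ : Fin n => gaussianReal 0 1)
    rw [show P2 = Measure.infinitePi fun p : Fin n × Fin n =>
      (fun _ _ : Fin n => gaussianReal 0 1) p.1 p.2 from rfl, h, Measure.infinitePi_eq_pi]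
    congr 1
    funext i
    rw [Measure.infinitePi_eq_pi]
  have h2 : P2.map (MeasurableEquiv.piCongrLeft (fun _ : Fin n × Fin n => ℝ)
      (Equiv.prodComm (Fin n) (Fin n))) = P2 :=
    Measure.infinitePi_map_piCongrLeft (X := fun _ : Fin n × Fin n => ℝ)
      (fun _ : Fin n × Fin n => gaussianReal 0 1) (Equiv.prodComm (Fin n) (Fin n))
  have hm : Measurable fun (x : Fin n → Fin n → ℝ) i j => x j i := by fun_prop
  rw [h1, Measure.map_map hm (MeasurableEquiv.measurable _)]
  nth_rewrite 2 [← h2]
  rw [Measure.map_map (MeasurableEquiv.measurable _) (MeasurableEquiv.measurable _)]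
  congr 1

/-- The Gaussian measure on families, from coordinates. -/
theorem MM_eq_toLp (n : ℕ) : MM n =
    (Measure.pi fun _ : Fin n => Measure.pi fun _ : Fin n => gaussianReal 0 1).map
      (fun (x : Fin n → Fin n → ℝ) i => WithLp.toLp 2 (x i)) := by
  have h := Measure.pi_map_pi (μ := fun _ : Fin n => Measure.pi fun _ : Fin n => gaussianReal 0 1)
    (f := fun _ : Fin n => (WithLp.toLp 2 : (Fin n → ℝ) → EE n)) (fun _ => by fun_prop)
  rw [h]
  simp only [map_pi_eq_stdGaussian]

theorem MM_eq_onb (b : OrthonormalBasis (Fin n) ℝ (EE n)) : MM n =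
    (Measure.pi fun _ : Fin n => Measure.pi fun _ : Fin n => gaussianReal 0 1).map
      (fun (x : Fin n → Fin n → ℝ) i => ∑ j, x i j • b j) := by
  have h := Measure.pi_map_pi (μ := fun _ : Fin n => Measure.pi fun _ : Fin n => gaussianReal 0 1)
    (f := fun _ : Fin n => (fun x : Fin n → ℝ => ∑ j, x j • b j))
    (fun _ => (show Measurable fun x : Fin n → ℝ => ∑ j, x j • b j by fun_prop).aemeasurable)
  rw [h]
  unfold MM
  congr 1
  funext i
  exact stdGaussian_eq_map_pi_orthonormalBasis b

/-- Exchanging the rows and the columns in an orthonormal basis. -/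
theorem lintegral_MM_swap (b : OrthonormalBasis (Fin n) ℝ (EE n)) (Ψ : (Fin n → EE n) → ℝ≥0∞)
    (hΨ : Measurable Ψ) :
    ∫⁻ G, Ψ G ∂(MM n) = ∫⁻ X, Ψ (fun i => ∑ j, (X j) i • b j) ∂(MM n) := by
  have hm1 : Measurable fun (x : Fin n → Fin n → ℝ) (i : Fin n) => ∑ j, x i j • b j := by fun_prop
  have hm2 : Measurable fun (x : Fin n → Fin n → ℝ) (i : Fin n) => (WithLp.toLp 2 (x i) : EE n) := by
    fun_prop
  have hm3 : Measurable fun (X : Fin n → EE n) (i : Fin n) => ∑ j, (X j) i • b j := by fun_prop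
  have hm4 : Measurable fun (x : Fin n → Fin n → ℝ) i j => x j i := by fun_prop
  calc ∫⁻ G, Ψ G ∂(MM n) = ∫⁻ x, Ψ (fun i => ∑ j, x i j • b j)
        ∂(Measure.pi fun _ : Fin n => Measure.pi fun _ : Fin n => gaussianReal 0 1) := by
        rw [MM_eq_onb b, lintegral_map hΨ hm1]
    _ = ∫⁻ x, Ψ (fun i => ∑ j, x j i • b j)
        ∂(Measure.pi fun _ : Fin n => Measure.pi fun _ : Fin n => gaussianReal 0 1) := by
        conv_lhs => rw [← swap_pi n]
        exact lintegral_map (hΨ.comp hm1) hm4
    _ = ∫⁻ X, Ψ (fun i => ∑ j, (X j) i • b j) ∂(MM n) := by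
        conv_rhs => rw [MM_eq_toLp]
        exact (lintegral_map (f := fun X : Fin n → EE n => Ψ (fun i => ∑ j, (X j) i • b j))
          (hΨ.comp hm3) hm2).symm

/-- The key comparison: the norm of the solution of `∑ y_i A_i = z` for a Gaussian family `A` with
any mean is stochastically at most `‖z‖ / |g|`. -/
theorem dual_ineq (B : Fin n → EE n) (z : Fin n → ℝ) {τ : ℝ} (hτ : 0 ≤ τ) :
    ∫⁻ g, FF (τ * ∑ i, z i ^ 2) g ∂(gaussianReal 0 1) ≤
      ∫⁻ G, ENNReal.ofReal (Real.exp (-(τ * hh z (G + B)))) ∂(MM n) := by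
  classical
  rcases eq_or_ne z 0 with hz | hz
  · -- trivial case
    have h1 : ∀ A : Fin n → EE n, hh z A = 0 := by
      intro A
      unfold hh
      rw [hz, Matrix.mulVec_zero]
      simp
    simp only [h1, mul_zero, neg_zero, Real.exp_zero, ENNReal.ofReal_one, lintegral_const,
      measure_univ, mul_one]
    calc ∫⁻ g, FF (τ * ∑ i, z i ^ 2) g ∂(gaussianReal 0 1) ≤ ∫⁻ g, 1 ∂(gaussianReal 0 1) := by
          refine lintegral_mono fun g => ?_
          unfold FF
          split_ifs
          · exact zero_le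
          · rw [ENNReal.ofReal_le_one]
            apply Real.exp_le_one_iff.2
            have : 0 ≤ τ * ∑ i, z i ^ 2 := mul_nonneg hτ (Finset.sum_nonneg fun _ _ => sq_nonneg _)
            have : 0 ≤ τ * ∑ i, z i ^ 2 / g ^ 2 := by positivity
            have h3 : 0 ≤ (τ * ∑ i, z i ^ 2) / g ^ 2 := by positivity
            linarith
      _ = 1 := by simp
  -- the general case
  have hn : 0 < n := by
    rcases Nat.eq_zero_or_pos n with h0 | h0
    · subst h0
      exact absurd (Subsingleton.elim z 0) hz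
    · exact h0
  let i₀ : Fin n := ⟨0, hn⟩
  set ze : EE n := WithLp.toLp 2 z with hze
  have hze0 : ze ≠ 0 := fun h => hz (congrArg WithLp.ofLp h)
  set ζ : ℝ := ‖ze‖ with hζ
  have hζ0 : 0 < ζ := norm_pos_iff.2 hze0
  have hζ2 : ∑ i, z i ^ 2 = ζ ^ 2 := by
    rw [hζ, EuclideanSpace.real_norm_sq_eq]
  obtain ⟨b, hb⟩ := exists_onb (ζ⁻¹ • ze) (by
    rw [norm_smul, norm_inv, norm_norm]
    exact inv_mul_cancel₀ hζ0.ne') i₀
  have hzb : ze = ζ • b i₀ := by
    rw [hb, smul_smul, mul_inv_cancel₀ hζ0.ne', one_smul]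
  have hmΨ : Measurable fun G : Fin n → EE n =>
      ENNReal.ofReal (Real.exp (-(τ * hh z (G + B)))) :=
    (measurable_exp_hh z τ).comp (measurable_add_const B)
  rw [lintegral_MM_swap b _ hmΨ]
  -- the shift in the new coordinates
  let βf : Fin n → EE n := fun j => WithLp.toLp 2 fun i => ⟪b j, B i⟫
  let rec' : (Fin n → EE n) → (Fin n → EE n) := fun X i => ∑ j, (X j) i • b j
  have hrec : ∀ X : Fin n → EE n, (fun i => ∑ j, (X j) i • b j) + B = rec' (X + βf) := by
    intro X
    funext i
    simp only [rec', Pi.add_apply, PiLp.add_apply, add_smul, Finset.sum_add_distrib]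
    congr 1
    exact (b.sum_repr' (B i)).symm
  simp only [hrec]
  -- pointwise lower bound
  have hpt : ∀ (Y : Fin n → EE n) (ν : EE n), ‖ν‖ = 1 → (∀ j, j ≠ i₀ → ⟪ν, Y j⟫ = 0) →
      FF (τ * ζ ^ 2) ⟪ν, Y i₀⟫ ≤ ENNReal.ofReal (Real.exp (-(τ * hh z (rec' Y)))) := by
    intro Y ν hν hY
    unfold FF
    by_cases hs : ⟪ν, Y i₀⟫ = 0
    · rw [if_pos hs]; exact zero_le
    rw [if_neg hs]
    apply ENNReal.ofReal_le_ofReal
    apply Real.exp_le_exp.2
    apply neg_le_neg
    by_cases hD : D n (rec' Y) = 0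
    · rw [hh_of_D_eq_zero z _ hD, mul_zero]
      positivity
    · apply le_of_eq
      set s : ℝ := ⟪ν, Y i₀⟫ with hs'
      have hy : ∑ i, (ζ / s * ν i) • rec' Y i = WithLp.toLp 2 z := by
        rw [← hze, hzb]
        have h1 : ∑ i, (ζ / s * ν i) • rec' Y i = ∑ j, (ζ / s * ⟪ν, Y j⟫) • b j := by
          simp only [rec', Finset.smul_sum, smul_smul]
          rw [Finset.sum_comm]
          refine Finset.sum_congr rfl fun j _ => ?_
          rw [← Finset.sum_smul]
          congr 1
          rw [PiLp.inner_apply, Finset.mul_sum]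
          refine Finset.sum_congr rfl fun i _ => ?_
          simp only [RCLike.inner_apply, conj_trivial]
          ring
        rw [h1, Finset.sum_eq_single i₀]
        · rw [← hs', div_mul_cancel₀ _ hs]
        · intro j _ hj
          rw [hY j hj, mul_zero, zero_smul]
        · intro h
          exact absurd (Finset.mem_univ _) h
      rw [hh_eq z _ _ hD hy]
      have h2 : ∑ i, (ζ / s * ν i) ^ 2 = (ζ / s) ^ 2 := by
        simp only [mul_pow, ← Finset.mul_sum]
        have h3 : ∑ i, ν i ^ 2 = 1 := by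
          rw [← EuclideanSpace.real_norm_sq_eq, hν, one_pow]
        rw [h3, mul_one]
      rw [h2, div_pow, mul_div_assoc]
  -- integrate the coordinate `i₀`
  set c₀ : ℝ≥0∞ := ∫⁻ g, FF (τ * ∑ i, z i ^ 2) g ∂(gaussianReal 0 1) with hc₀
  have hmR : Measurable fun X : Fin n → EE n =>
      ENNReal.ofReal (Real.exp (-(τ * hh z (rec' (X + βf))))) := by
    have h1 : Measurable rec' := by
      show Measurable fun (X : Fin n → EE n) (i : Fin n) => ∑ j, (X j) i • b j
      fun_prop
    exact (measurable_exp_hh z τ).comp (h1.comp (measurable_add_const βf))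
  have key : ∫⁻ _ : Fin n → EE n, c₀ ∂(MM n) ≤
      ∫⁻ X, ENNReal.ofReal (Real.exp (-(τ * hh z (rec' (X + βf))))) ∂(MM n) := by
    refine lintegral_le_of_lmarginal_le {i₀} measurable_const hmR ?_
    rw [lmarginal_singleton, lmarginal_singleton]
    intro X
    simp only
    obtain ⟨ν, hν, hν2⟩ := exists_normal (X + βf) i₀
    have hupd : ∀ a : EE n, Function.update X i₀ a + βf = Function.update (X + βf) i₀ (a + βf i₀) := by
      intro a
      ext1 j
      by_cases hj : j = i₀
      · subst hj; simp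
      · simp [Function.update_of_ne hj]
    have h1 : ∀ a : EE n, FF (τ * ζ ^ 2) ⟪ν, a + βf i₀⟫ ≤
        ENNReal.ofReal (Real.exp (-(τ * hh z (rec' (Function.update X i₀ a + βf))))) := by
      intro a
      rw [hupd]
      have h2 := hpt (Function.update (X + βf) i₀ (a + βf i₀)) ν hν (by
        intro j hj
        rw [Function.update_of_ne hj]
        exact hν2 j hj)
      rw [Function.update_self] at h2
      exact h2
    refine le_trans ?_ (lintegral_mono h1)
    have hmF : Measurable fun a : EE n => FF (τ * ζ ^ 2) ⟪ν, a⟫ :=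
      (measurable_FF _).comp (by fun_prop)
    have h3 := line_ineq ν hν (fun _ => c₀) (fun a => FF (τ * ζ ^ 2) ⟪ν, a⟫) measurable_const hmF
      (βf i₀) ?_
    · exact h3
    · intro p hp β
      have h4 : ∀ x : ℝ, ⟪ν, p + (x + β) • ν⟫ = x + β := by
        intro x
        rw [inner_add_right, hp, inner_smul_right, real_inner_self_eq_norm_sq, hν]
        ring
      simp only [h4, lintegral_const, measure_univ, mul_one]
      rw [hc₀, hζ2]
      exact anderson _ (measurable_FF _) (FF_mono (by positivity)) β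
  simpa using key

end Pool.Agent.Helper77K9.SV
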