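import Pool.Agent.Helper77K9.SV.Dual

/-! The bound for the smallest singular value of a Gaussian matrix with an arbitrary mean. -/

set_option autoImplicit false

open MeasureTheory ProbabilityTheory Set
open scoped ENNReal NNReal RealInnerProductSpace

namespace Pool.Agent.Helper77K9.SV

variable {n : ℕ}

/-- The Gaussian weight. -/
noncomputable def gw (z : Fin n → ℝ) : ℝ≥0∞ := ENNReal.ofReal (Real.exp (-((∑ i, z i ^ 2) / 2)))

theorem measurable_gw : Measurable (gw (n := n)) := by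
  unfold gw
  fun_prop

/-- The total Gaussian integral. -/
noncomputable def cg (n : ℕ) : ℝ≥0∞ := ∫⁻ z : Fin n → ℝ, gw z

theorem cg_eq (n : ℕ) : cg n = ENNReal.ofReal (√(2 * Real.pi)) ^ n := by
  have h1 : ∀ z : Fin n → ℝ, gw z = ∏ i, ENNReal.ofReal (Real.exp (-(1 / 2) * z i ^ 2)) := by
    intro z
    unfold gw
    rw [← ENNReal.ofReal_prod_of_nonneg (fun i _ => (Real.exp_pos _).le), ← Real.exp_sum]
    congr 2
    rw [← Finset.mul_sum]
    ring
  unfold cg
  simp only [h1]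
  rw [volume_pi, Pool.Agent.H988R2.lintegral_fintype_prod (fun _ : Fin n => (volume : Measure ℝ))
    (fun _ x => ENNReal.ofReal (Real.exp (-(1 / 2) * x ^ 2))) (fun _ => by fun_prop)]
  rw [Finset.prod_const, Finset.card_univ, Fintype.card_fin]
  congr 1
  rw [← ofReal_integral_eq_lintegral_ofReal (integrable_exp_neg_mul_sq (by norm_num))
    (Filter.Eventually.of_forall fun x => (Real.exp_pos _).le), integral_gaussian]
  congr 2
  ring

theorem cg_ne_zero (n : ℕ) : cg n ≠ 0 := by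
  rw [cg_eq]
  apply pow_ne_zero
  rw [Ne, ENNReal.ofReal_eq_zero, not_le]
  exact Real.sqrt_pos.2 (by positivity)

theorem cg_ne_top (n : ℕ) : cg n ≠ ⊤ := by
  rw [cg_eq]
  exact ENNReal.pow_ne_top ENNReal.ofReal_ne_top

/-- Linear change of variables. -/
theorem lintegral_mat (M : Matrix (Fin n) (Fin n) ℝ) (hM : M.det ≠ 0) (F : (Fin n → ℝ) → ℝ≥0∞)
    (hF : Measurable F) :
    ENNReal.ofReal |M.det| * ∫⁻ y, F (M.mulVec y) = ∫⁻ z, F z := by
  have h := Real.map_matrix_volume_pi_eq_smul_volume_pi hM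
  have hm : Measurable fun y : Fin n → ℝ => M.mulVec y := by
    have : Continuous fun y : Fin n → ℝ => M.mulVec y := by fun_prop
    exact this.measurable
  have h1 : ∫⁻ y, F (M.mulVec y) = ∫⁻ z, F z ∂(Measure.map (Matrix.toLin' M) volume) := by
    exact (lintegral_map (μ := volume) hF hm).symm
  rw [h1, h, lintegral_smul_measure, smul_eq_mul, ← mul_assoc, ← ENNReal.ofReal_mul (abs_nonneg _),
    abs_inv, mul_inv_cancel₀ (abs_ne_zero.2 hM), ENNReal.ofReal_one, one_mul]

theorem norm_sum_eq (A : Fin n → EE n) (y : Fin n → ℝ) :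
    ‖∑ i, y i • A i‖ ^ 2 = ∑ j, ((Mt A).mulVec y j) ^ 2 := by
  rw [EuclideanSpace.real_norm_sq_eq]
  exact Finset.sum_congr rfl fun j _ => by rw [Mt_mulVec]

/-- Integration over `y`, upper bound. -/
theorem int_y_le (A : Fin n → EE n) :
    ∫⁻ y : Fin n → ℝ, ENNReal.ofReal (|D n A| * Real.exp (-(‖∑ i, y i • A i‖ ^ 2 / 2))) ≤ cg n := by
  by_cases h : D n A = 0
  · simp [h]
  · apply le_of_eq
    have h1 : ∀ y : Fin n → ℝ, ENNReal.ofReal (|D n A| * Real.exp (-(‖∑ i, y i • A i‖ ^ 2 / 2))) =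
        ENNReal.ofReal |(Mt A).det| * gw ((Mt A).mulVec y) := by
      intro y
      rw [ENNReal.ofReal_mul (abs_nonneg _), det_Mt, gw, norm_sum_eq]
    simp only [h1]
    have hm : Measurable fun y : Fin n → ℝ => gw ((Mt A).mulVec y) := by
      have : Continuous fun y : Fin n → ℝ => (Mt A).mulVec y := by fun_prop
      exact measurable_gw.comp this.measurable
    rw [lintegral_const_mul _ hm, lintegral_mat (Mt A) (by rw [det_Mt]; exact h) gw measurable_gw]
    rfl

/-- Integration over `y`, with the weight. -/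
theorem int_y_eq (A : Fin n → EE n) (h : D n A ≠ 0) (τ : ℝ) :
    ∫⁻ y : Fin n → ℝ, ENNReal.ofReal (Real.exp (-(τ * ∑ i, y i ^ 2))) *
      ENNReal.ofReal (|D n A| * Real.exp (-(‖∑ i, y i • A i‖ ^ 2 / 2))) =
    ∫⁻ z : Fin n → ℝ, gw z * ENNReal.ofReal (Real.exp (-(τ * hh z A))) := by
  have hdet : (Mt A).det ≠ 0 := by rw [det_Mt]; exact h
  have hu : IsUnit (Mt A).det := isUnit_iff_ne_zero.2 hdet
  let F : (Fin n → ℝ) → ℝ≥0∞ := fun z => gw z * ENNReal.ofReal (Real.exp (-(τ * hh z A)))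
  have hF : Measurable F := by
    have h1 : Measurable fun z : Fin n → ℝ => hh z A := by
      unfold hh
      have : Continuous fun z : Fin n → ℝ => (Mt A)⁻¹.mulVec z := by fun_prop
      fun_prop
    have := measurable_gw (n := n)
    fun_prop
  have h1 : ∀ y : Fin n → ℝ, ENNReal.ofReal (Real.exp (-(τ * ∑ i, y i ^ 2))) *
      ENNReal.ofReal (|D n A| * Real.exp (-(‖∑ i, y i • A i‖ ^ 2 / 2))) =
      ENNReal.ofReal |(Mt A).det| * F ((Mt A).mulVec y) := by
    intro y
    have h2 : hh ((Mt A).mulVec y) A = ∑ i, y i ^ 2 := by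
      unfold hh
      rw [Matrix.mulVec_mulVec, Matrix.nonsing_inv_mul _ hu, Matrix.one_mulVec]
    simp only [F]
    rw [h2, ENNReal.ofReal_mul (abs_nonneg _), det_Mt, gw, norm_sum_eq]
    ring
  simp only [h1]
  have hm : Measurable fun y : Fin n → ℝ => F ((Mt A).mulVec y) := by
    have : Continuous fun y : Fin n → ℝ => (Mt A).mulVec y := by fun_prop
    exact hF.comp this.measurable
  rw [lintegral_const_mul _ hm, lintegral_mat (Mt A) hdet F hF]

/-- The scaled Gaussian integral. -/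
theorem scaled_ge (n : ℕ) (a : ℝ) (ha : 1 ≤ a) :
    ENNReal.ofReal (Real.exp (-(n * (a - 1) / 2))) * cg n ≤
      ∫⁻ z : Fin n → ℝ, ENNReal.ofReal (Real.exp (-(a * (∑ i, z i ^ 2) / 2))) := by
  have ha0 : 0 < a := by linarith
  set s := √a with hs
  have hs0 : 0 < s := Real.sqrt_pos.2 ha0
  have hs2 : s ^ 2 = a := Real.sq_sqrt ha0.le
  set M : Matrix (Fin n) (Fin n) ℝ := s • 1 with hMdef
  have hdet : M.det = s ^ n := by
    rw [hMdef, Matrix.det_smul, Matrix.det_one, mul_one, Fintype.card_fin]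
  have h1 := lintegral_mat M (by rw [hdet]; positivity) gw measurable_gw
  have h2 : ∀ y : Fin n → ℝ, gw (M.mulVec y) =
      ENNReal.ofReal (Real.exp (-(a * (∑ i, y i ^ 2) / 2))) := by
    intro y
    unfold gw
    rw [hMdef, Matrix.smul_mulVec, Matrix.one_mulVec]
    simp only [Pi.smul_apply, smul_eq_mul, mul_pow, ← Finset.mul_sum, hs2]
  simp only [h2] at h1
  have h3 : ENNReal.ofReal |M.det| ≤ ENNReal.ofReal (Real.exp (n * (a - 1) / 2)) := by
    apply ENNReal.ofReal_le_ofReal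
    rw [hdet, abs_of_pos (by positivity)]
    have h4 : s ≤ Real.exp ((a - 1) / 2) := by
      have h5 : s ^ 2 ≤ (Real.exp ((a - 1) / 2)) ^ 2 := by
        rw [hs2, ← Real.exp_nat_mul]
        have := Real.add_one_le_exp (a - 1)
        have h6 : ((2 : ℕ) : ℝ) * ((a - 1) / 2) = a - 1 := by push_cast; ring
        rw [h6]
        linarith
      exact (pow_le_pow_iff_left₀ hs0.le (Real.exp_pos _).le two_ne_zero).1 h5
    calc s ^ n ≤ (Real.exp ((a - 1) / 2)) ^ n := pow_le_pow_left₀ hs0.le h4 n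
      _ = Real.exp (n * (a - 1) / 2) := by
        rw [← Real.exp_nat_mul]
        congr 1
        ring
  have h4 : cg n ≤ ENNReal.ofReal (Real.exp (n * (a - 1) / 2)) *
      ∫⁻ z : Fin n → ℝ, ENNReal.ofReal (Real.exp (-(a * (∑ i, z i ^ 2) / 2))) := by
    have : cg n = ∫⁻ z : Fin n → ℝ, gw z := rfl
    rw [this, ← h1]
    exact mul_le_mul_left h3 _
  calc ENNReal.ofReal (Real.exp (-(n * (a - 1) / 2))) * cg n ≤
      ENNReal.ofReal (Real.exp (-(n * (a - 1) / 2))) * (ENNReal.ofReal (Real.exp (n * (a - 1) / 2)) *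
      ∫⁻ z : Fin n → ℝ, ENNReal.ofReal (Real.exp (-(a * (∑ i, z i ^ 2) / 2)))) :=
        mul_le_mul_right h4 _
    _ = _ := by
      rw [← mul_assoc, ← ENNReal.ofReal_mul (Real.exp_pos _).le, ← Real.exp_add, neg_add_cancel,
        Real.exp_zero, ENNReal.ofReal_one, one_mul]

/-- The final integral over `z` and `g`. -/
theorem final_int (n : ℕ) {τ : ℝ} (hτ : 0 ≤ τ) :
    ENNReal.ofReal (Real.exp (-√(n * τ))) * cg n ≤
      ∫⁻ z : Fin n → ℝ, gw z * ∫⁻ g, FF (τ / 2 * ∑ i, z i ^ 2) g ∂(gaussianReal 0 1) := by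
  have hmFF : Measurable fun p : (Fin n → ℝ) × ℝ => FF (τ / 2 * ∑ i, p.1 i ^ 2) p.2 := by
    unfold FF
    refine Measurable.ite (measurable_snd (measurableSet_singleton 0)) measurable_const ?_
    fun_prop
  have hm1 : Measurable fun p : (Fin n → ℝ) × ℝ => gw p.1 * FF (τ / 2 * ∑ i, p.1 i ^ 2) p.2 :=
    (measurable_gw.comp measurable_fst).mul hmFF
  have h1 : ∫⁻ z : Fin n → ℝ, gw z * ∫⁻ g, FF (τ / 2 * ∑ i, z i ^ 2) g ∂(gaussianReal 0 1) =
      ∫⁻ g, (∫⁻ z : Fin n → ℝ, gw z * FF (τ / 2 * ∑ i, z i ^ 2) g) ∂(gaussianReal 0 1) := by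
    rw [← lintegral_lintegral_swap hm1.aemeasurable]
    refine lintegral_congr fun z => ?_
    rw [lintegral_const_mul _ (measurable_FF _)]
  rw [h1]
  have h2 : ∀ᵐ g ∂(gaussianReal 0 1), ENNReal.ofReal (Real.exp (-(√(n * τ) ^ 2 / (2 * g ^ 2)))) * cg n ≤
      ∫⁻ z : Fin n → ℝ, gw z * FF (τ / 2 * ∑ i, z i ^ 2) g := by
    have hne : ∀ᵐ g ∂(gaussianReal 0 1), g ≠ 0 := by
      have := nullSingletonClass_gaussianReal (μ := 0) (v := 1) one_ne_zero
      rw [ae_iff]
      simp
    filter_upwards [hne] with g hg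
    have hg2 : 0 < g ^ 2 := by positivity
    have h3 : ∀ z : Fin n → ℝ, gw z * FF (τ / 2 * ∑ i, z i ^ 2) g =
        ENNReal.ofReal (Real.exp (-((1 + τ / g ^ 2) * (∑ i, z i ^ 2) / 2))) := by
      intro z
      unfold gw FF
      rw [if_neg hg, ← ENNReal.ofReal_mul (Real.exp_pos _).le, ← Real.exp_add]
      congr 2
      field_simp
      ring
    simp only [h3]
    have h4 := scaled_ge n (1 + τ / g ^ 2) (by
      have : 0 ≤ τ / g ^ 2 := by positivity
      linarith)
    refine le_trans (le_of_eq ?_) h4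
    congr 3
    rw [Real.sq_sqrt (by positivity)]
    field_simp
    ring
  refine le_trans ?_ (lintegral_mono_ae h2)
  have hm2 : Measurable fun g : ℝ => ENNReal.ofReal (Real.exp (-(√(n * τ) ^ 2 / (2 * g ^ 2)))) := by
    fun_prop
  rw [lintegral_mul_const _ hm2]
  exact mul_le_mul_left (levy _ (Real.sqrt_nonneg _)) _

theorem measurable_shift (B : Fin n → EE n) : Measurable fun p : (Fin n → ℝ) × (Fin n → EE n) =>
    ((p.1, p.2 + B) : (Fin n → ℝ) × (Fin n → EE n)) :=
  measurable_fst.prodMk (measurable_snd.add_const B)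

theorem measurable_hh_shift (B : Fin n → EE n) :
    Measurable fun p : (Fin n → ℝ) × (Fin n → EE n) => hh p.1 (p.2 + B) := by
  have := Measurable.comp measurable_hh (measurable_shift B)
  exact this

theorem measurable_gw_hh (B : Fin n → EE n) (c : ℝ) :
    Measurable fun p : (Fin n → ℝ) × (Fin n → EE n) =>
        gw p.1 * ENNReal.ofReal (Real.exp (-(c * hh p.1 (p.2 + B)))) := by
  have h1 : Measurable fun p : (Fin n → ℝ) × (Fin n → EE n) => gw p.1 :=
    measurable_gw.comp measurable_fst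
  have h2 := (((measurable_hh_shift B).const_mul c).neg.exp).ennreal_ofReal
  exact h1.mul h2

theorem measurable_weight (B : Fin n → EE n) :
    Measurable fun p : (Fin n → ℝ) × (Fin n → EE n) =>
      ENNReal.ofReal (|D n (p.2 + B)| * Real.exp (-(‖∑ i, p.1 i • (p.2 + B) i‖ ^ 2 / 2))) := by
  refine Measurable.ennreal_ofReal (Continuous.measurable ?_)
  have h1 : Continuous fun p : (Fin n → ℝ) × (Fin n → EE n) => D n (p.2 + B) :=
    continuous_D.comp (by fun_prop)
  fun_prop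

theorem measurableSet_GS_shift (B : Fin n → EE n) (τ : ℝ) :
    MeasurableSet {G : Fin n → EE n | G + B ∈ GS (fun _ : Fin n => τ)} :=
  (measurable_add_const B) (isClosed_GS _).measurableSet

theorem upper (B : Fin n → EE n) (τ : ℝ) :
    ∫⁻ y, TT B (fun _ => τ) y ≤ cg n * MM n {G | G + B ∈ GS (fun _ : Fin n => τ)} := by
  have hGS := measurableSet_GS_shift B τ
  have hmw := measurable_weight B
  have hmi : Measurable fun p : (Fin n → ℝ) × (Fin n → EE n) =>
      intg (fun _ => τ) p.1 (p.2 + B) := by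
    have : (fun p : (Fin n → ℝ) × (Fin n → EE n) => intg (fun _ => τ) p.1 (p.2 + B)) =
        (Prod.snd ⁻¹' {G : Fin n → EE n | G + B ∈ GS (fun _ : Fin n => τ)}).indicator
        (fun p : (Fin n → ℝ) × (Fin n → EE n) => ENNReal.ofReal (|D n (p.2 + B)| *
          Real.exp (-(‖∑ i, p.1 i • (p.2 + B) i‖ ^ 2 / 2)))) := by
      funext p
      unfold intg
      by_cases hp : p.2 + B ∈ GS (fun _ : Fin n => τ)
      · rw [indicator_of_mem hp, indicator_of_mem (show p ∈ _ from hp)]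
      · rw [indicator_of_notMem hp, indicator_of_notMem (show p ∉ _ from hp)]
    rw [this]
    exact hmw.indicator (measurable_snd hGS)
  unfold TT
  rw [lintegral_lintegral_swap hmi.aemeasurable]
  have h1 : ∀ G : Fin n → EE n, ∫⁻ y, intg (fun _ => τ) y (G + B) ≤
      {G : Fin n → EE n | G + B ∈ GS (fun _ : Fin n => τ)}.indicator (fun _ => cg n) G := by
    intro G
    by_cases hG : G + B ∈ GS (fun _ : Fin n => τ)
    · rw [indicator_of_mem (show G ∈ _ from hG)]
      refine le_trans (lintegral_mono fun y => ?_) (int_y_le (G + B))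
      unfold intg
      rw [indicator_of_mem hG]
    · have : ∀ y : Fin n → ℝ, intg (fun _ => τ) y (G + B) = 0 := by
        intro y
        unfold intg
        rw [indicator_of_notMem hG]
      simp [this]
  refine (lintegral_mono h1).trans (le_of_eq ?_)
  rw [lintegral_indicator_const hGS]

theorem TT_zero (B : Fin n → EE n) (y : Fin n → ℝ) :
    TT B 0 y = ∫⁻ G, ENNReal.ofReal (|D n (G + B)| *
        Real.exp (-(‖∑ i, y i • (G + B) i‖ ^ 2 / 2))) ∂(MM n) := by
  unfold TT
  refine lintegral_congr fun G => ?_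
  unfold intg
  rw [indicator_of_mem]
  intro w
  simp only [Pi.zero_apply, zero_mul, Finset.sum_const_zero]
  positivity

theorem measurable_TT_zero (B : Fin n → EE n) : Measurable fun y : Fin n → ℝ => TT B 0 y := by
  simp only [TT_zero]
  exact Measurable.lintegral_prod_right' (measurable_weight B)

theorem measurable_wt (c : ℝ) : Measurable fun y : Fin n → ℝ =>
    ENNReal.ofReal (Real.exp (-(c * ∑ i, y i ^ 2))) := by fun_prop

theorem measurable_wt_weight (B : Fin n → EE n) (c : ℝ) :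
    Measurable fun p : (Fin n → ℝ) × (Fin n → EE n) =>
      ENNReal.ofReal (Real.exp (-(c * ∑ i, p.1 i ^ 2))) *
      ENNReal.ofReal (|D n (p.2 + B)| * Real.exp (-(‖∑ i, p.1 i • (p.2 + B) i‖ ^ 2 / 2))) := by
  have h1 : Measurable fun p : (Fin n → ℝ) × (Fin n → EE n) =>
      ENNReal.ofReal (Real.exp (-(c * ∑ i, p.1 i ^ 2))) := (measurable_wt c).comp measurable_fst
  exact h1.mul (measurable_weight B)

theorem measurable_weight_left (B : Fin n → EE n) (y : Fin n → ℝ) :
    Measurable fun G : Fin n → EE n => ENNReal.ofReal (|D n (G + B)| *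
      Real.exp (-(‖∑ i, y i • (G + B) i‖ ^ 2 / 2))) := by
  have := Measurable.comp (measurable_weight B)
    (measurable_prodMk_left (x := y) : Measurable fun G : Fin n → EE n => (y, G))
  exact this

theorem swap_gen {f : (Fin n → ℝ) → (Fin n → EE n) → ℝ≥0∞}
    (hf : Measurable fun p : (Fin n → ℝ) × (Fin n → EE n) => f p.1 p.2) :
    ∫⁻ G, (∫⁻ y : Fin n → ℝ, f y G) ∂(MM n) = ∫⁻ y : Fin n → ℝ, (∫⁻ G, f y G ∂(MM n)) :=
  (lintegral_lintegral_swap hf.aemeasurable).symm

theorem mid1 (B : Fin n → EE n) (c : ℝ) :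
    ∫⁻ y : Fin n → ℝ, ENNReal.ofReal (Real.exp (-(c * ∑ i, y i ^ 2))) * TT B 0 y =
        ∫⁻ G, (∫⁻ y : Fin n → ℝ, ENNReal.ofReal (Real.exp (-(c * ∑ i, y i ^ 2))) *
          ENNReal.ofReal (|D n (G + B)| * Real.exp (-(‖∑ i, y i • (G + B) i‖ ^ 2 / 2)))) ∂(MM n) := by
  rw [swap_gen (f := fun (y : Fin n → ℝ) (G : Fin n → EE n) =>
      ENNReal.ofReal (Real.exp (-(c * ∑ i, y i ^ 2))) *
      ENNReal.ofReal (|D n (G + B)| * Real.exp (-(‖∑ i, y i • (G + B) i‖ ^ 2 / 2))))
      (measurable_wt_weight B c)]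
  refine lintegral_congr fun y => ?_
  rw [lintegral_const_mul _ (measurable_weight_left B y), TT_zero]

theorem mid2 (B : Fin n → EE n) (c : ℝ) :
    ∫⁻ G, (∫⁻ y : Fin n → ℝ, ENNReal.ofReal (Real.exp (-(c * ∑ i, y i ^ 2))) *
          ENNReal.ofReal (|D n (G + B)| * Real.exp (-(‖∑ i, y i • (G + B) i‖ ^ 2 / 2)))) ∂(MM n) =
        ∫⁻ G, (∫⁻ z : Fin n → ℝ, gw z * ENNReal.ofReal (Real.exp (-(c * hh z (G + B))))) ∂(MM n) := by
  refine lintegral_congr_ae ?_
  filter_upwards [ae_D_ne B] with G hG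
  exact int_y_eq (G + B) hG c

theorem measurable_exp_hh_shift (B : Fin n → EE n) (c : ℝ) (z : Fin n → ℝ) :
    Measurable fun G : Fin n → EE n => ENNReal.ofReal (Real.exp (-(c * hh z (G + B)))) := by
  have := Measurable.comp (measurable_exp_hh z c) (measurable_add_const B)
  exact this

theorem mid3 (B : Fin n → EE n) (c : ℝ) :
    ∫⁻ G, (∫⁻ z : Fin n → ℝ, gw z * ENNReal.ofReal (Real.exp (-(c * hh z (G + B))))) ∂(MM n) =
      ∫⁻ z : Fin n → ℝ, gw z * ∫⁻ G, ENNReal.ofReal (Real.exp (-(c * hh z (G + B)))) ∂(MM n) := by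
  rw [swap_gen (f := fun (z : Fin n → ℝ) (G : Fin n → EE n) =>
      gw z * ENNReal.ofReal (Real.exp (-(c * hh z (G + B))))) (measurable_gw_hh B c)]
  refine lintegral_congr fun z => ?_
  rw [lintegral_const_mul _ (measurable_exp_hh_shift B c z)]

theorem lower (B : Fin n → EE n) {τ : ℝ} (hτ : 0 ≤ τ) :
    ENNReal.ofReal (Real.exp (-(n * τ / 2))) *
      (ENNReal.ofReal (Real.exp (-√(n * τ))) * cg n) ≤ ∫⁻ y, TT B (fun _ => τ) y := by
  have h1 : ∀ y : Fin n → ℝ, ENNReal.ofReal (Real.exp (-(n * τ / 2))) *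
      (ENNReal.ofReal (Real.exp (-(τ / 2 * ∑ i, y i ^ 2))) * TT B 0 y) ≤ TT B (fun _ => τ) y := by
    intro y
    refine le_trans (le_of_eq ?_) (all_steps B y hτ)
    rw [← mul_assoc, ← ENNReal.ofReal_mul (Real.exp_pos _).le, ← Real.exp_add]
    congr 3
    ring
  refine le_trans ?_ (lintegral_mono h1)
  have hm4 : Measurable fun y : Fin n → ℝ =>
      ENNReal.ofReal (Real.exp (-(τ / 2 * ∑ i, y i ^ 2))) * TT B 0 y :=
    (measurable_wt _).mul (measurable_TT_zero B)
  rw [lintegral_const_mul _ hm4]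
  refine mul_le_mul_right ?_ _
  rw [mid1, mid2, mid3]
  refine (final_int n hτ).trans (lintegral_mono fun z => ?_)
  exact mul_le_mul_right (dual_ineq B z (by positivity)) _

/-- **Main theorem**: lower bound for the probability that the smallest singular value is at least
`√τ`. -/
theorem main (B : Fin n → EE n) {τ : ℝ} (hτ : 0 ≤ τ) :
    ENNReal.ofReal (Real.exp (-(n * τ / 2) - √(n * τ))) ≤
      MM n {G | G + B ∈ GS (fun _ : Fin n => τ)} := by
  have h := (lower B hτ).trans (upper B τ)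
  have h2 : cg n * ENNReal.ofReal (Real.exp (-(n * τ / 2) - √(n * τ))) ≤
      cg n * MM n {G | G + B ∈ GS (fun _ : Fin n => τ)} := by
    refine le_trans (le_of_eq ?_) h
    rw [sub_eq_add_neg, Real.exp_add, ENNReal.ofReal_mul (Real.exp_pos _).le]
    ring
  exact (ENNReal.mul_le_mul_iff_right (cg_ne_zero n) (cg_ne_top n)).1 h2

end Pool.Agent.Helper77K9.SV
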