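import Pool.Agent.Helper77K9.SV.Fin

/-! From the bound for the set `GS` to the norm of the inverse. -/

set_option autoImplicit false
set_option maxHeartbeats 400000

open MeasureTheory ProbabilityTheory Set
open scoped ENNReal NNReal RealInnerProductSpace

namespace Pool.Agent.Helper77K9.SV

variable {n : ℕ}

/-- rows of a matrix as vectors -/
noncomputable def rows (C : Matrix (Fin n) (Fin n) ℝ) : Fin n → EE n := fun i => WithLp.toLp 2 (C i)

theorem norm_rows (C : Matrix (Fin n) (Fin n) ℝ) (w : Fin n → ℝ) :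
    ‖∑ i, w i • rows C i‖ ^ 2 = ∑ j, (Matrix.vecMul w C j) ^ 2 := by
  rw [EuclideanSpace.real_norm_sq_eq]
  refine Finset.sum_congr rfl fun j _ => ?_
  congr 1
  simp only [rows, Matrix.vecMul, dotProduct, WithLp.ofLp_sum, WithLp.ofLp_smul, Finset.sum_apply,
    Pi.smul_apply, smul_eq_mul]

theorem inv_bound (C : Matrix (Fin n) (Fin n) ℝ) {τ σ : ℝ} (hτ : 0 < τ) (hσ : 0 < σ)
    (h : rows C ∈ GS (fun _ : Fin n => τ)) (v : Fin n → ℝ) :
    σ ^ 2 * τ * ∑ i, (Matrix.mulVec (σ • C)⁻¹ v i) ^ 2 ≤ ∑ i, v i ^ 2 := by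
  have h' : ∀ w : Fin n → ℝ, ∑ i, τ * w i ^ 2 ≤ ∑ j, (Matrix.vecMul w C j) ^ 2 := by
    intro w
    rw [← norm_rows]
    exact h w
  have hdet : C.det ≠ 0 := by
    intro h0
    obtain ⟨w, hw0, hw⟩ := Matrix.exists_vecMul_eq_zero_iff.2 h0
    have h1 := h' w
    rw [hw] at h1
    simp only [Pi.zero_apply, ne_eq, OfNat.ofNat_ne_zero, not_false_eq_true, zero_pow,
      Finset.sum_const_zero] at h1
    apply hw0
    have h2 : ∑ i, τ * w i ^ 2 = 0 :=
      le_antisymm h1 (Finset.sum_nonneg fun i _ => by positivity)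
    rw [Finset.sum_eq_zero_iff_of_nonneg (fun i _ => by positivity)] at h2
    funext i
    have h3 := h2 i (Finset.mem_univ _)
    have h4 : w i ^ 2 = 0 := by
      rcases mul_eq_zero.1 h3 with h | h
      · exact absurd h hτ.ne'
      · exact h
    simpa using h4
  set A : Matrix (Fin n) (Fin n) ℝ := σ • C with hA
  have hAu : IsUnit A.det := by
    rw [isUnit_iff_ne_zero, hA, Matrix.det_smul]
    positivity
  set u := Matrix.mulVec A⁻¹ v with hu
  set w := Matrix.vecMul u A⁻¹ with hw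
  have hAu' : Matrix.mulVec A u = v := by
    rw [hu, Matrix.mulVec_mulVec, Matrix.mul_nonsing_inv _ hAu, Matrix.one_mulVec]
  have hwA : Matrix.vecMul w A = u := by
    rw [hw, Matrix.vecMul_vecMul, Matrix.nonsing_inv_mul _ hAu, Matrix.vecMul_one]
  have h1 : σ ^ 2 * τ * ∑ i, w i ^ 2 ≤ ∑ i, u i ^ 2 := by
    have h2 := h' w
    have h3 : ∀ j, u j = σ * Matrix.vecMul w C j := by
      intro j
      rw [← hwA, hA, Matrix.vecMul_smul, Pi.smul_apply, smul_eq_mul]
    calc σ ^ 2 * τ * ∑ i, w i ^ 2 = σ ^ 2 * ∑ i, τ * w i ^ 2 := by rw [← Finset.mul_sum]; ring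
      _ ≤ σ ^ 2 * ∑ j, (Matrix.vecMul w C j) ^ 2 := mul_le_mul_of_nonneg_left h2 (by positivity)
      _ = ∑ i, u i ^ 2 := by
        rw [Finset.mul_sum]
        exact Finset.sum_congr rfl fun j _ => by rw [h3 j]; ring
  have h2 : ∑ i, u i ^ 2 = ∑ i, w i * v i := by
    have h3 : u ⬝ᵥ u = w ⬝ᵥ v := by
      calc u ⬝ᵥ u = Matrix.vecMul w A ⬝ᵥ u := by rw [hwA]
        _ = w ⬝ᵥ Matrix.mulVec A u := (Matrix.dotProduct_mulVec w A u).symm
        _ = w ⬝ᵥ v := by rw [hAu']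
    simp only [dotProduct] at h3
    rw [← h3]
    exact Finset.sum_congr rfl fun i _ => by ring
  have h3 : (∑ i, w i * v i) ^ 2 ≤ (∑ i, w i ^ 2) * ∑ i, v i ^ 2 :=
    Finset.sum_mul_sq_le_sq_mul_sq _ _ _
  rw [← h2] at h3
  set U := ∑ i, u i ^ 2 with hU
  set W := ∑ i, w i ^ 2 with hW
  set V := ∑ i, v i ^ 2 with hV
  have hU0 : 0 ≤ U := Finset.sum_nonneg fun i _ => sq_nonneg _
  have hV0 : 0 ≤ V := Finset.sum_nonneg fun i _ => sq_nonneg _
  rcases hU0.eq_or_lt with h0 | h0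
  · rw [← h0, mul_zero]; exact hV0
  · have h4 : U * (σ ^ 2 * τ * U) ≤ U * V := by
      calc U * (σ ^ 2 * τ * U) = σ ^ 2 * τ * U ^ 2 := by ring
        _ ≤ σ ^ 2 * τ * (W * V) := mul_le_mul_of_nonneg_left h3 (by positivity)
        _ = (σ ^ 2 * τ * W) * V := by ring
        _ ≤ U * V := mul_le_mul_of_nonneg_right h1 hV0
    exact le_of_mul_le_mul_left h4 h0

theorem good_prob (B : Fin n → EE n) {τ : ℝ} (hτ : 0 ≤ τ) :
    (Measure.pi fun _ : Fin n => Measure.pi fun _ : Fin n => gaussianReal 0 1)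
      {G : Fin n → Fin n → ℝ | (fun i => WithLp.toLp 2 (G i)) + B ∈ GS (fun _ : Fin n => τ)}ᶜ ≤
      ENNReal.ofReal √(n * τ) := by
  have hm2 : Measurable fun (x : Fin n → Fin n → ℝ) (i : Fin n) => (WithLp.toLp 2 (x i) : EE n) := by
    fun_prop
  have hS := measurableSet_GS_shift B τ
  set S := {G : Fin n → EE n | G + B ∈ GS (fun _ : Fin n => τ)} with hSdef
  have h1 : {G : Fin n → Fin n → ℝ | (fun i => WithLp.toLp 2 (G i)) + B ∈ GS (fun _ : Fin n => τ)}ᶜ =
      (fun (x : Fin n → Fin n → ℝ) (i : Fin n) => (WithLp.toLp 2 (x i) : EE n)) ⁻¹' Sᶜ := rfl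
  rw [h1, ← Measure.map_apply hm2 hS.compl, ← MM_eq_toLp]
  have hprob : IsProbabilityMeasure (MM n) := by unfold MM; infer_instance
  rw [prob_compl_eq_one_sub hS]
  have h2 := main B hτ
  have h3 := final_ineq √(n * τ) (Real.sqrt_nonneg (n * τ))
  have h4 : Real.exp (-(√(n * τ) ^ 2 / 2) - √(n * τ)) = Real.exp (-(n * τ / 2) - √(n * τ)) := by
    rw [Real.sq_sqrt (by positivity)]
  rw [h4] at h3
  rw [tsub_le_iff_right]
  calc (1 : ℝ≥0∞) = ENNReal.ofReal (√(n * τ) + (1 - √(n * τ))) := by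
        rw [add_sub_cancel, ENNReal.ofReal_one]
    _ ≤ ENNReal.ofReal (√(n * τ) + Real.exp (-(n * τ / 2) - √(n * τ))) :=
        ENNReal.ofReal_le_ofReal (by linarith)
    _ = ENNReal.ofReal √(n * τ) + ENNReal.ofReal (Real.exp (-(n * τ / 2) - √(n * τ))) :=
        ENNReal.ofReal_add (Real.sqrt_nonneg _) (Real.exp_pos _).le
    _ ≤ _ := by gcongr

/-- The bound of Sankar, Spielman and Teng with the sharp constant. -/
theorem final (Abar : Matrix (Fin n) (Fin n) ℝ) {σ x : ℝ} (hσ : 0 < σ) (hx : 0 < x) :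
    (Measure.pi (fun _ : Fin n => Measure.pi (fun _ : Fin n => gaussianReal 0 1)))
        {G : Fin n → Fin n → ℝ |
          ∃ v : Fin n → ℝ, (∑ i, v i ^ 2 ≤ 1) ∧
            x ^ 2 ≤ ∑ i, (Matrix.mulVec (Abar + σ • Matrix.of G)⁻¹ v) i ^ 2}
        ≤ ENNReal.ofReal (Real.sqrt n / (x * σ)) := by
  set E := {G : Fin n → Fin n → ℝ |
          ∃ v : Fin n → ℝ, (∑ i, v i ^ 2 ≤ 1) ∧
            x ^ 2 ≤ ∑ i, (Matrix.mulVec (Abar + σ • Matrix.of G)⁻¹ v) i ^ 2} with hE
  have key : ∀ t : ℝ, 1 / (x * σ) < t →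
      (Measure.pi (fun _ : Fin n => Measure.pi (fun _ : Fin n => gaussianReal 0 1))) E ≤
        ENNReal.ofReal (√n * t) := by
    intro t ht
    have ht0 : 0 < t := lt_trans (by positivity) ht
    have hτ : 0 < t ^ 2 := by positivity
    have h1 := good_prob (rows (σ⁻¹ • Abar)) hτ.le
    have h2 : √(n * t ^ 2) = √n * t := by
      rw [Real.sqrt_mul (by positivity), Real.sqrt_sq ht0.le]
    rw [h2] at h1
    refine (measure_mono ?_).trans h1
    rintro G ⟨v, hv, hx2⟩ hG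
    set C : Matrix (Fin n) (Fin n) ℝ := Matrix.of G + σ⁻¹ • Abar with hC
    have h3 : (fun i => WithLp.toLp 2 (G i)) + rows (σ⁻¹ • Abar) = rows C := by
      funext i
      rfl
    have hG' : rows C ∈ GS (fun _ : Fin n => t ^ 2) := by rw [← h3]; exact hG
    have h4 : Abar + σ • Matrix.of G = σ • C := by
      rw [hC, smul_add, smul_smul, mul_inv_cancel₀ hσ.ne', one_smul, add_comm]
    have h5 := inv_bound C hτ hσ hG' v
    rw [← h4] at h5
    have h6 : σ ^ 2 * t ^ 2 * x ^ 2 ≤ 1 := by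
      calc σ ^ 2 * t ^ 2 * x ^ 2 ≤ σ ^ 2 * t ^ 2 *
            ∑ i, (Matrix.mulVec (Abar + σ • Matrix.of G)⁻¹ v) i ^ 2 :=
            mul_le_mul_of_nonneg_left hx2 (by positivity)
        _ ≤ ∑ i, v i ^ 2 := h5
        _ ≤ 1 := hv
    have h7 : 1 < t * (x * σ) := by
      rwa [div_lt_iff₀ (by positivity)] at ht
    nlinarith [h7, h6]
  have hlim : Filter.Tendsto (fun t : ℝ => ENNReal.ofReal (√n * t)) (nhdsWithin (1 / (x * σ)) (Ioi (1 / (x * σ))))
      (nhds (ENNReal.ofReal (√n / (x * σ)))) := by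
    have h1 : Continuous fun t : ℝ => ENNReal.ofReal (√n * t) :=
      ENNReal.continuous_ofReal.comp (continuous_const.mul continuous_id)
    have h2 := (h1.tendsto (1 / (x * σ))).mono_left (nhdsWithin_le_nhds (s := Ioi (1 / (x * σ))))
    have h3 : √n * (1 / (x * σ)) = √n / (x * σ) := by ring
    rw [h3] at h2
    exact h2
  refine ge_of_tendsto hlim ?_
  filter_upwards [self_mem_nhdsWithin] with t ht
  exact key t ht

end Pool.Agent.Helper77K9.SV
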