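import Pool.Agent.Helper77K9.SV.Step
import Pool.Agent.H988R2.Gauss

/-! A Gaussian matrix is almost surely invertible. -/

set_option autoImplicit false

open MeasureTheory ProbabilityTheory Set
open scoped ENNReal NNReal RealInnerProductSpace

namespace Pool.Agent.Helper77K9.SV

theorem pi_ac {α : Type} [MeasurableSpace α] (μ ν : Measure α) [SigmaFinite μ]
    [SigmaFinite ν] (h : μ ≪ ν) (n : ℕ) :
    Measure.pi (fun _ : Fin n => μ) ≪ Measure.pi (fun _ : Fin n => ν) := by
  induction n with
  | zero =>
    rw [Measure.pi_of_empty, Measure.pi_of_empty]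
  | succ n ih =>
    have h1 := measurePreserving_piFinSuccAbove (fun _ : Fin (n + 1) => μ) 0
    have h2 := measurePreserving_piFinSuccAbove (fun _ : Fin (n + 1) => ν) 0
    have h3 := (h1.symm (MeasurableEquiv.piFinSuccAbove (fun _ => α) 0)).map_eq
    have h4 := (h2.symm (MeasurableEquiv.piFinSuccAbove (fun _ => α) 0)).map_eq
    rw [← h3, ← h4]
    exact (h.prod ih).map (MeasurableEquiv.measurable _)

theorem roots_null {n : ℕ} (M : Matrix (Fin n) (Fin n) ℝ) :
    volume {t : ℝ | (M + t • (1 : Matrix (Fin n) (Fin n) ℝ)).det = 0} = 0 := by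
  refine Set.Finite.measure_zero ?_ _
  refine ((-M).charpoly.roots.toFinset.finite_toSet).subset ?_
  intro t ht
  have h0 : (-M).charpoly ≠ 0 := (Matrix.charpoly_monic _).ne_zero
  rw [Finset.mem_coe, Multiset.mem_toFinset, Polynomial.mem_roots h0, Polynomial.IsRoot.def,
    Matrix.eval_charpoly]
  have h1 : (Matrix.scalar (Fin n)) t - -M = M + t • (1 : Matrix (Fin n) (Fin n) ℝ) := by
    rw [sub_neg_eq_add, add_comm, Matrix.scalar_apply, Matrix.smul_one_eq_diagonal]
  rw [h1]
  exact ht

variable {n : ℕ}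

/-- the identity as a family of vectors -/
noncomputable def idf (n : ℕ) : Fin n → EE n := fun i => EuclideanSpace.single i 1

theorem D_add_smul_idf (A : Fin n → EE n) (t : ℝ) :
    D n (A + t • idf n) = ((Matrix.of fun i j => A i j) + t • (1 : Matrix (Fin n) (Fin n) ℝ)).det := by
  rw [D_eq]
  congr 1
  ext i j
  simp only [Matrix.of_apply, Pi.add_apply, Pi.smul_apply, PiLp.add_apply, PiLp.smul_apply, idf,
    Matrix.add_apply, Matrix.smul_apply, Matrix.one_apply, smul_eq_mul, PiLp.single_apply]
  by_cases h : i = j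
  · subst h; simp
  · simp [h, Ne.symm h]

theorem vol_null (n : ℕ) : volume {A : Fin n → EE n | D n A = 0} = 0 := by
  let S : Set ((Fin n → EE n) × ℝ) := {p | D n (p.1 + p.2 • idf n) = 0}
  have hcont : Continuous fun p : (Fin n → EE n) × ℝ => D n (p.1 + p.2 • idf n) :=
    continuous_D.comp (by fun_prop)
  have hS : MeasurableSet S := (isClosed_eq hcont continuous_const).measurableSet
  have h1 : (volume.prod volume : Measure ((Fin n → EE n) × ℝ)) S = 0 := by
    rw [Measure.measure_prod_null hS]
    refine Filter.Eventually.of_forall fun A => ?_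
    have := roots_null (Matrix.of fun i j => A i j)
    show volume {t : ℝ | D n (A + t • idf n) = 0} = 0
    simp only [D_add_smul_idf]
    exact this
  have h2 : (volume.prod volume : Measure (ℝ × (Fin n → EE n))) (Prod.swap ⁻¹' S) = 0 := by
    rw [← Measure.prod_swap, Measure.map_apply measurable_swap (measurable_swap hS)]
    have h0 : (Prod.swap ⁻¹' (Prod.swap ⁻¹' S) : Set ((Fin n → EE n) × ℝ)) = S := by
      ext ⟨a, b⟩
      rfl
    rw [h0]
    exact h1
  have h3 := Measure.measure_ae_null_of_prod_null h2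
  obtain ⟨t, ht⟩ := h3.exists
  change volume ((fun A => A + t • idf n) ⁻¹' {A : Fin n → EE n | D n A = 0}) = 0 at ht
  rw [measure_preimage_add_right] at ht
  exact ht

theorem ae_D_ne (B : Fin n → EE n) : ∀ᵐ G ∂(MM n), D n (G + B) ≠ 0 := by
  have hac : MM n ≪ volume := pi_ac _ _ (Pool.Agent.H988R2.stdGaussian_ac (Fin n)) n
  have h := vol_null n
  have h2 : volume ((fun A => A + B) ⁻¹' {A : Fin n → EE n | D n A = 0}) = 0 := by
    rw [measure_preimage_add_right]
    exact h
  have h3 : ∀ᵐ G ∂(volume : Measure (Fin n → EE n)), D n (G + B) ≠ 0 := by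
    rw [ae_iff]
    simpa using h2
  exact hac.ae_le h3

end Pool.Agent.Helper77K9.SV
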