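import Mathlib

/-! One dimensional inequalities for Gaussian integrals. -/

set_option autoImplicit false

open MeasureTheory ProbabilityTheory Set
open scoped ENNReal NNReal

namespace Pool.Agent.Helper77K9.SV

/-- The standard Gaussian density. -/
noncomputable def phi (x : ℝ) : ℝ≥0∞ := ENNReal.ofReal ((√(2 * Real.pi))⁻¹ * Real.exp (-x ^ 2 / 2))

theorem phi_eq (x : ℝ) : gaussianPDF 0 1 x = phi x := by
  rw [gaussianPDF_def, phi, gaussianPDFReal_def]
  simp

theorem continuous_phiR : Continuous fun x : ℝ => (√(2 * Real.pi))⁻¹ * Real.exp (-x ^ 2 / 2) := by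
  fun_prop

theorem measurable_phi : Measurable phi := by
  unfold phi
  exact continuous_phiR.measurable.ennreal_ofReal

theorem phi_neg (x : ℝ) : phi (-x) = phi x := by
  unfold phi
  rw [neg_sq]

theorem phi_anti {x y : ℝ} (h : |x| ≤ |y|) : phi y ≤ phi x := by
  unfold phi
  apply ENNReal.ofReal_le_ofReal
  refine mul_le_mul_of_nonneg_left (Real.exp_le_exp.2 ?_) (by positivity)
  have := sq_le_sq.2 h
  linarith

theorem lintegral_gauss (F : ℝ → ℝ≥0∞) (hF : Measurable F) :
    ∫⁻ x, F x ∂(gaussianReal 0 1) = ∫⁻ x, phi x * F x := by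
  rw [gaussianReal_of_var_ne_zero 0 one_ne_zero,
    lintegral_withDensity_eq_lintegral_mul _ (measurable_gaussianPDF 0 1) hF]
  refine lintegral_congr fun x => ?_
  rw [Pi.mul_apply, phi_eq]

theorem lintegral_gauss_shift (F : ℝ → ℝ≥0∞) (hF : Measurable F) (β : ℝ) :
    ∫⁻ x, F (x + β) ∂(gaussianReal 0 1) = ∫⁻ x, phi (x - β) * F x := by
  rw [lintegral_gauss (fun x => F (x + β)) (hF.comp (measurable_add_const β))]
  have := lintegral_add_right_eq_self (μ := (volume : Measure ℝ)) (fun x => phi (x - β) * F x) β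
  simp only [add_sub_cancel_right] at this
  exact this

theorem lintegral_neg_Ioi (G : ℝ → ℝ≥0∞) (a : ℝ) :
    ∫⁻ x in Ioi a, G (-x) = ∫⁻ x in Iio (-a), G x := by
  have h := (Measure.measurePreserving_neg (volume : Measure ℝ)).setLIntegral_comp_preimage_emb
    (MeasurableEquiv.neg ℝ).measurableEmbedding G (Iio (-a))
  rw [← h]
  congr 2
  ext x
  simp

/-- Folding an integral over the line. -/
theorem lintegral_fold (G : ℝ → ℝ≥0∞) (hG : Measurable G) :
    ∫⁻ x, G x = ∫⁻ x in Ioi (0 : ℝ), (G x + G (-x)) := by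
  rw [lintegral_add_left hG, lintegral_neg_Ioi, neg_zero, ← lintegral_add_compl G measurableSet_Ioi]
  congr 1
  rw [compl_Ioi]
  exact setLIntegral_congr Iio_ae_eq_Iic.symm

/-- The symmetrised noncentral density. -/
noncomputable def sphi (β s : ℝ) : ℝ≥0∞ := phi (s - β) + phi (s + β)

theorem sphi_eq (β s : ℝ) : sphi β s = ENNReal.ofReal ((√(2 * Real.pi))⁻¹ *
    (2 * Real.exp (-s ^ 2 / 2) * Real.exp (-β ^ 2 / 2) * Real.cosh (β * s))) := by
  unfold sphi phi
  rw [← ENNReal.ofReal_add (by positivity) (by positivity)]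
  congr 1
  rw [← mul_add]
  congr 1
  rw [Real.cosh_eq, show -(s - β) ^ 2 / 2 = -s ^ 2 / 2 + -β ^ 2 / 2 + β * s by ring,
    show -(s + β) ^ 2 / 2 = -s ^ 2 / 2 + -β ^ 2 / 2 + -(β * s) by ring,
    Real.exp_add _ (β * s), Real.exp_add _ (-(β * s)), Real.exp_add (-s ^ 2 / 2)]
  ring

theorem sphi_le (β : ℝ) {r s τ : ℝ} (hr : 0 < r) (hs : 0 < s) (h : s ^ 2 = r ^ 2 + τ) (hτ : 0 ≤ τ) :
    sphi β r ≤ ENNReal.ofReal (Real.exp (τ / 2)) * sphi β s := by
  rw [sphi_eq, sphi_eq, ← ENNReal.ofReal_mul (by positivity)]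
  apply ENNReal.ofReal_le_ofReal
  have h1 : Real.cosh (β * r) ≤ Real.cosh (β * s) := by
    rw [Real.cosh_le_cosh, abs_mul, abs_mul, abs_of_pos hr, abs_of_pos hs]
    refine mul_le_mul_of_nonneg_left ?_ (abs_nonneg _)
    nlinarith
  have h2 : Real.exp (-r ^ 2 / 2) = Real.exp (τ / 2) * Real.exp (-s ^ 2 / 2) := by
    rw [← Real.exp_add]
    congr 1
    rw [h]
    ring
  rw [h2]
  have h3 : 0 ≤ (√(2 * Real.pi))⁻¹ * (2 * (Real.exp (τ / 2) * Real.exp (-s ^ 2 / 2)) *
      Real.exp (-β ^ 2 / 2)) := by positivity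
  calc _ = ((√(2 * Real.pi))⁻¹ * (2 * (Real.exp (τ / 2) * Real.exp (-s ^ 2 / 2)) *
      Real.exp (-β ^ 2 / 2))) * Real.cosh (β * r) := by ring
    _ ≤ ((√(2 * Real.pi))⁻¹ * (2 * (Real.exp (τ / 2) * Real.exp (-s ^ 2 / 2)) *
      Real.exp (-β ^ 2 / 2))) * Real.cosh (β * s) := mul_le_mul_of_nonneg_left h1 h3
    _ = _ := by ring

/-- For even functions only the symmetrised density matters. -/
theorem lintegral_even (u : ℝ → ℝ≥0∞) (hu : Measurable u) (he : ∀ x, u (-x) = u x) (β : ℝ) :
    ∫⁻ x, u (x + β) ∂(gaussianReal 0 1) = ∫⁻ s in Ioi (0 : ℝ), sphi β s * u s := by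
  have hm : Measurable fun x => phi (x - β) * u x :=
    (measurable_phi.comp (measurable_sub_const β)).mul hu
  rw [lintegral_gauss_shift u hu, lintegral_fold _ hm]
  refine lintegral_congr fun s => ?_
  have h1 : phi (-s - β) = phi (s + β) := by
    rw [← phi_neg]
    congr 1
    ring
  rw [he, h1, sphi]
  ring

/-- The shift `s ^ 2 = r ^ 2 + τ`. -/
theorem lintegral_shift_sq (F : ℝ → ℝ≥0∞) {τ : ℝ} (hτ : 0 ≤ τ) :
    ∫⁻ s in Ioi (√τ), F s =
      ∫⁻ r in Ioi (0 : ℝ), ENNReal.ofReal (r / √(r ^ 2 + τ)) * F (√(r ^ 2 + τ)) := by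
  have himg : (fun r : ℝ => √(r ^ 2 + τ)) '' Ioi 0 = Ioi (√τ) := by
    ext s
    simp only [mem_image, mem_Ioi]
    constructor
    · rintro ⟨r, hr, rfl⟩
      exact Real.sqrt_lt_sqrt hτ (by nlinarith)
    · intro hs
      have hs0 : 0 < s := (Real.sqrt_nonneg τ).trans_lt hs
      have h1 : τ < s ^ 2 := by
        have := Real.sq_sqrt hτ
        nlinarith [Real.sqrt_nonneg τ]
      refine ⟨√(s ^ 2 - τ), Real.sqrt_pos.2 (by linarith), ?_⟩
      rw [Real.sq_sqrt (by linarith), sub_add_cancel, Real.sqrt_sq hs0.le]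
  have hder : ∀ r ∈ Ioi (0 : ℝ), HasDerivWithinAt (fun r : ℝ => √(r ^ 2 + τ))
      (r / √(r ^ 2 + τ)) (Ioi 0) r := by
    intro r hr
    have hr' : 0 < r := hr
    have hpos : 0 < r ^ 2 + τ := by positivity
    have h1 : HasDerivAt (fun r : ℝ => r ^ 2 + τ) (2 * r) r := by
      have := ((hasDerivAt_id r).pow 2).add_const τ
      simpa using this
    have h2 := (h1.sqrt hpos.ne').hasDerivWithinAt (s := Ioi 0)
    exact h2.congr_deriv (mul_div_mul_left _ _ two_ne_zero)
  have hinj : InjOn (fun r : ℝ => √(r ^ 2 + τ)) (Ioi 0) := by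
    intro a ha b hb hab
    have ha' : 0 < a := ha
    have hb' : 0 < b := hb
    simp only at hab
    have h1 : a ^ 2 + τ = b ^ 2 + τ := by
      rw [← Real.sq_sqrt (show 0 ≤ a ^ 2 + τ by positivity), hab,
        Real.sq_sqrt (show 0 ≤ b ^ 2 + τ by positivity)]
    nlinarith
  rw [← himg, lintegral_image_eq_lintegral_abs_deriv_mul measurableSet_Ioi hder hinj]
  refine setLIntegral_congr_fun measurableSet_Ioi fun r hr => ?_
  have hr' : 0 < r := hr
  rw [abs_of_nonneg (by positivity)]

/-- The basic one dimensional inequality: the shift of the square of a (noncentral) Gaussian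
variable. -/
theorem shift_ineq (u v : ℝ → ℝ≥0∞) (hu : Measurable u) (hv : Measurable v)
    (heu : ∀ x, u (-x) = u x) (hev : ∀ x, v (-x) = v x) {τ : ℝ} (hτ : 0 ≤ τ) (C : ℝ≥0∞)
    (h : ∀ r, 0 < r → u r * ENNReal.ofReal (√(r ^ 2 + τ)) ≤
      C * (v (√(r ^ 2 + τ)) * ENNReal.ofReal r)) (β : ℝ) :
    ∫⁻ x, u (x + β) ∂(gaussianReal 0 1) ≤
      C * ENNReal.ofReal (Real.exp (τ / 2)) * ∫⁻ x, v (x + β) ∂(gaussianReal 0 1) := by
  rw [lintegral_even u hu heu, lintegral_even v hv hev]
  have hms : Measurable (sphi β) := by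
    unfold sphi
    exact (measurable_phi.comp (measurable_sub_const β)).add
      (measurable_phi.comp (measurable_add_const β))
  calc ∫⁻ s in Ioi (0 : ℝ), sphi β s * u s
      ≤ ∫⁻ r in Ioi (0 : ℝ), (C * ENNReal.ofReal (Real.exp (τ / 2))) *
          (ENNReal.ofReal (r / √(r ^ 2 + τ)) * (sphi β (√(r ^ 2 + τ)) * v (√(r ^ 2 + τ)))) := by
        refine setLIntegral_mono' measurableSet_Ioi fun r hr => ?_
        have hr' : 0 < r := hr
        have hpos : 0 < r ^ 2 + τ := by positivity
        have hs : 0 < √(r ^ 2 + τ) := Real.sqrt_pos.2 hpos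
        have h1 := sphi_le β hr' hs (Real.sq_sqrt hpos.le) hτ
        have h2 : u r ≤ C * (v (√(r ^ 2 + τ)) * ENNReal.ofReal (r / √(r ^ 2 + τ))) := by
          have h3 := h r hr'
          rw [ENNReal.ofReal_div_of_pos hs]
          have hne : ENNReal.ofReal (√(r ^ 2 + τ)) ≠ 0 := by
            rw [Ne, ENNReal.ofReal_eq_zero, not_le]; exact hs
          have h4 : u r = u r * ENNReal.ofReal (√(r ^ 2 + τ)) / ENNReal.ofReal (√(r ^ 2 + τ)) := by
            rw [ENNReal.mul_div_cancel_right hne ENNReal.ofReal_ne_top]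
          rw [h4]
          refine (ENNReal.div_le_div_right h3 _).trans (le_of_eq ?_)
          rw [div_eq_mul_inv, div_eq_mul_inv]
          ring
        calc sphi β r * u r ≤ (ENNReal.ofReal (Real.exp (τ / 2)) * sphi β (√(r ^ 2 + τ))) *
              (C * (v (√(r ^ 2 + τ)) * ENNReal.ofReal (r / √(r ^ 2 + τ)))) := mul_le_mul' h1 h2
          _ = _ := by ring
    _ = (C * ENNReal.ofReal (Real.exp (τ / 2))) * ∫⁻ r in Ioi (0 : ℝ),
          (ENNReal.ofReal (r / √(r ^ 2 + τ)) * (sphi β (√(r ^ 2 + τ)) * v (√(r ^ 2 + τ)))) := by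
        refine lintegral_const_mul _ ?_
        have hsq : Measurable fun r : ℝ => √(r ^ 2 + τ) := by fun_prop
        exact ((measurable_id.div hsq).ennreal_ofReal).mul ((hms.comp hsq).mul (hv.comp hsq))
    _ = (C * ENNReal.ofReal (Real.exp (τ / 2))) * ∫⁻ s in Ioi (√τ), sphi β s * v s := by
        rw [lintegral_shift_sq (fun s => sphi β s * v s) hτ]
    _ ≤ _ := by
        refine mul_le_mul_right (lintegral_mono_set (Ioi_subset_Ioi (Real.sqrt_nonneg τ))) _

/-- One dimensional Anderson inequality. -/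
theorem anderson (F : ℝ → ℝ≥0∞) (hF : Measurable F) (hmono : ∀ x y, |x| ≤ |y| → F x ≤ F y)
    (β : ℝ) : ∫⁻ x, F x ∂(gaussianReal 0 1) ≤ ∫⁻ x, F (x + β) ∂(gaussianReal 0 1) := by
  have heven : ∀ x, F (-x) = F x := fun x => le_antisymm (hmono _ _ (by rw [abs_neg]))
    (hmono _ _ (by rw [abs_neg]))
  -- reduce to `β ≥ 0`
  wlog hβ : 0 ≤ β generalizing β
  · have h1 := this (-β) (by linarith)
    refine h1.trans (le_of_eq ?_)
    rw [lintegral_even F hF heven, lintegral_even F hF heven]
    refine lintegral_congr fun s => ?_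
    unfold sphi
    rw [sub_neg_eq_add, add_comm (phi (s + β)), ← sub_eq_add_neg]
  have hF' : Measurable fun x => F (x + β) := hF.comp (measurable_add_const β)
  rw [lintegral_gauss F hF, lintegral_gauss _ hF']
  -- split at `-β/2` and reflect
  have hsplit : ∀ G : ℝ → ℝ≥0∞, Measurable G →
      ∫⁻ x, G x = ∫⁻ x in Ioi (-β / 2), (G x + G (-β - x)) := by
    intro G hG
    rw [lintegral_add_left hG, ← lintegral_add_compl G (measurableSet_Ioi (a := -β / 2))]
    congr 1
    rw [compl_Ioi, ← setLIntegral_congr (μ := volume) (f := G) (Iio_ae_eq_Iic (a := -β / 2))]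
    have h1 := lintegral_neg_Ioi (fun x => G (-β + x)) (-β / 2)
    have h2 : ∫⁻ x in Iio (-(-β / 2)), G (-β + x) = ∫⁻ x in Iio (-β / 2), G x := by
      have h3 := (measurePreserving_add_left (volume : Measure ℝ)
        (-β)).setLIntegral_comp_preimage_emb (measurableEmbedding_addLeft (-β)) G (Iio (-β / 2))
      rw [← h3]
      congr 2
      ext x
      simp only [mem_preimage, mem_Iio]
      constructor <;> intro h <;> linarith
    rw [← h2, ← h1]
    simp only [sub_eq_add_neg]
  rw [hsplit (fun x => phi x * F x) (measurable_phi.mul hF),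
    hsplit (fun x => phi x * F (x + β)) (measurable_phi.mul hF')]
  refine setLIntegral_mono' measurableSet_Ioi fun x hx => ?_
  have hx' : -β / 2 < x := hx
  have e1 : F (-β - x) = F (x + β) := by
    rw [← heven]
    congr 1
    ring
  have e2 : phi (-β - x) = phi (x + β) := by
    rw [← phi_neg]
    congr 1
    ring
  have e3 : F (-β - x + β) = F x := by
    rw [← heven]
    congr 1
    ring
  rw [e1, e2, e3]
  have habs : |x| ≤ |x + β| := by
    rw [← sq_le_sq]
    nlinarith
  have h1 : F x ≤ F (x + β) := hmono _ _ habs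
  have h2 : phi (x + β) ≤ phi x := phi_anti habs
  obtain ⟨c, hc⟩ := exists_add_of_le h1
  obtain ⟨d, hd⟩ := exists_add_of_le h2
  rw [hc, hd]
  calc (phi (x + β) + d) * F x + phi (x + β) * (F x + c)
      ≤ (phi (x + β) + d) * F x + phi (x + β) * (F x + c) + d * c := le_self_add
    _ = _ := by ring

/-- The Laplace transform of the inverse square of a Gaussian variable (only the bound from below
is needed). -/
theorem levy (b : ℝ) (hb : 0 ≤ b) :
    ENNReal.ofReal (Real.exp (-b)) ≤
      ∫⁻ g, ENNReal.ofReal (Real.exp (-(b ^ 2 / (2 * g ^ 2)))) ∂(gaussianReal 0 1) := by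
  rcases hb.eq_or_lt with rfl | hb
  · simp
  have hm0 : Measurable fun g : ℝ => ENNReal.ofReal (Real.exp (-(b ^ 2 / (2 * g ^ 2)))) := by
    fun_prop
  rw [lintegral_gauss _ hm0, lintegral_fold
    (fun g => phi g * ENNReal.ofReal (Real.exp (-(b ^ 2 / (2 * g ^ 2))))) (measurable_phi.mul hm0)]
  -- `I` is half of the Gaussian integral
  let e : ℝ → ℝ≥0∞ := fun u => phi u
  have htot : ∫⁻ u, e u = 1 := by
    have h1 := lintegral_gaussianPDF_eq_one 0 (v := 1) one_ne_zero
    rw [← h1]
    exact lintegral_congr fun u => (phi_eq u).symm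
  have hI : ∫⁻ u, e u = ∫⁻ g in Ioi (0 : ℝ), (e (g - b / g) + e (g - b / g)) := by
    have himg : (fun g : ℝ => g - b / g) '' Ioi 0 = univ := by
      refine eq_univ_of_forall fun u => ?_
      refine ⟨(u + √(u ^ 2 + 4 * b)) / 2, ?_, ?_⟩
      · have h1 : |u| < √(u ^ 2 + 4 * b) := by
          rw [← Real.sqrt_sq_eq_abs]
          exact Real.sqrt_lt_sqrt (sq_nonneg _) (by linarith)
        have := (abs_lt.1 h1).1
        show 0 < (u + √(u ^ 2 + 4 * b)) / 2
        linarith [neg_abs_le u]
      · have h1 : |u| < √(u ^ 2 + 4 * b) := by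
          rw [← Real.sqrt_sq_eq_abs]
          exact Real.sqrt_lt_sqrt (sq_nonneg _) (by linarith)
        have h2 : 0 < u + √(u ^ 2 + 4 * b) := by linarith [neg_abs_le u]
        have h3 := Real.sq_sqrt (show 0 ≤ u ^ 2 + 4 * b by positivity)
        simp only
        field_simp
        nlinarith
    have hder : ∀ g ∈ Ioi (0 : ℝ), HasDerivWithinAt (fun g : ℝ => g - b / g)
        (1 + b / g ^ 2) (Ioi 0) g := by
      intro g hg
      have hg' : g ≠ 0 := ne_of_gt hg
      have h1 : HasDerivAt (fun g : ℝ => g - b / g) (1 + b / g ^ 2) g := by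
        have h2 := (hasDerivAt_id g).sub ((hasDerivAt_inv hg').const_mul b)
        have h3 : (fun g : ℝ => g - b / g) = fun g => id g - b * g⁻¹ := by
          funext x; simp [div_eq_mul_inv]
        rw [h3]
        exact h2.congr_deriv (by field_simp; ring)
      exact h1.hasDerivWithinAt
    have hinj : InjOn (fun g : ℝ => g - b / g) (Ioi 0) := by
      intro x hx y hy hxy
      have hx' : 0 < x := hx
      have hy' : 0 < y := hy
      simp only at hxy
      field_simp at hxy
      have : (x - y) * (x * y + b) = 0 := by nlinarith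
      rcases mul_eq_zero.1 this with h | h
      · linarith
      · nlinarith [mul_pos hx' hy']
    have h1 : ∫⁻ u, e u = ∫⁻ g in Ioi (0 : ℝ), ENNReal.ofReal (1 + b / g ^ 2) * e (g - b / g) := by
      have h2 := lintegral_image_eq_lintegral_abs_deriv_mul measurableSet_Ioi hder hinj e
      rw [himg, setLIntegral_univ] at h2
      rw [h2]
      refine setLIntegral_congr_fun measurableSet_Ioi fun g hg => ?_
      have hg' : 0 < g := hg
      rw [abs_of_nonneg (by positivity)]
    -- the substitution `g ↦ b / g`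
    have himg2 : (fun g : ℝ => b / g) '' Ioi 0 = Ioi 0 := by
      ext h
      constructor
      · rintro ⟨g, hg, rfl⟩
        exact div_pos hb hg
      · intro hh
        have hh' : 0 < h := hh
        exact ⟨b / h, div_pos hb hh', by field_simp⟩
    have hder2 : ∀ g ∈ Ioi (0 : ℝ), HasDerivWithinAt (fun g : ℝ => b / g)
        (-(b / g ^ 2)) (Ioi 0) g := by
      intro g hg
      have hg' : g ≠ 0 := ne_of_gt hg
      have h1 : HasDerivAt (fun g : ℝ => b / g) (-(b / g ^ 2)) g := by
        have h2 := (hasDerivAt_inv hg').const_mul b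
        have h3 : (fun g : ℝ => b / g) = fun g => b * g⁻¹ := by
          funext x; simp [div_eq_mul_inv]
        rw [h3]
        exact h2.congr_deriv (by field_simp)
      exact h1.hasDerivWithinAt
    have hinj2 : InjOn (fun g : ℝ => b / g) (Ioi 0) := by
      intro x hx y hy hxy
      have hx' : 0 < x := hx
      have hy' : 0 < y := hy
      simp only at hxy
      field_simp at hxy
      exact hxy.symm
    have h3 : ∫⁻ h in Ioi (0 : ℝ), e (h - b / h) =
        ∫⁻ g in Ioi (0 : ℝ), ENNReal.ofReal (b / g ^ 2) * e (g - b / g) := by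
      have h2 := lintegral_image_eq_lintegral_abs_deriv_mul measurableSet_Ioi hder2 hinj2
        (fun h => e (h - b / h))
      rw [himg2] at h2
      rw [h2]
      refine setLIntegral_congr_fun measurableSet_Ioi fun g hg => ?_
      have hg' : 0 < g := hg
      have h4 : b / (b / g) = g := by field_simp
      rw [abs_neg, abs_of_nonneg (by positivity), h4]
      congr 1
      show phi _ = phi _
      rw [← phi_neg]
      congr 1
      ring
    have hme : Measurable fun g : ℝ => e (g - b / g) := by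
      have : Measurable fun g : ℝ => g - b / g := by fun_prop
      exact measurable_phi.comp this
    rw [lintegral_add_left hme, h1]
    nth_rewrite 2 [h3]
    rw [← lintegral_add_left hme]
    refine setLIntegral_congr_fun measurableSet_Ioi fun g hg => ?_
    have hg' : 0 < g := hg
    rw [ENNReal.ofReal_add (by norm_num) (by positivity), ENNReal.ofReal_one]
    ring
  have hfin : ∀ g ∈ Ioi (0 : ℝ), phi g * ENNReal.ofReal (Real.exp (-(b ^ 2 / (2 * g ^ 2)))) +
      phi (-g) * ENNReal.ofReal (Real.exp (-(b ^ 2 / (2 * (-g) ^ 2)))) =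
      ENNReal.ofReal (Real.exp (-b)) * (e (g - b / g) + e (g - b / g)) := by
    intro g hg
    have hg' : 0 < g := hg
    rw [phi_neg, neg_sq, ← mul_two, ← mul_two, ← mul_assoc]
    congr 1
    show phi g * _ = _ * phi (g - b / g)
    unfold phi
    rw [← ENNReal.ofReal_mul (by positivity), ← ENNReal.ofReal_mul (by positivity)]
    congr 1
    rw [mul_assoc, ← Real.exp_add, mul_left_comm, ← Real.exp_add]
    congr 2
    field_simp
    ring
  rw [setLIntegral_congr_fun measurableSet_Ioi hfin, lintegral_const_mul, ← hI, htot, mul_one]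
  have hme : Measurable fun g : ℝ => e (g - b / g) := by
    have : Measurable fun g : ℝ => g - b / g := by fun_prop
    exact measurable_phi.comp this
  exact hme.add hme

/-- The elementary inequality behind the final bound. -/
theorem final_ineq (b : ℝ) (hb : 0 ≤ b) : 1 - b ≤ Real.exp (-(b ^ 2 / 2) - b) := by
  rcases le_or_gt 1 b with h | h
  · have := Real.exp_pos (-(b ^ 2 / 2) - b)
    linarith
  -- `(1 - b) exp (b + b^2/2)` is decreasing
  let f : ℝ → ℝ := fun x => (1 - x) * Real.exp (x + x ^ 2 / 2)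
  have hd : ∀ x, HasDerivAt f (-(x ^ 2) * Real.exp (x + x ^ 2 / 2)) x := by
    intro x
    have h1 : HasDerivAt (fun x : ℝ => 1 - x) (-1) x := by
      simpa using (hasDerivAt_id x).const_sub 1
    have h2 : HasDerivAt (fun x : ℝ => x + x ^ 2 / 2) (1 + x) x := by
      have := (hasDerivAt_id x).add (((hasDerivAt_id x).pow 2).div_const 2)
      exact this.congr_deriv (by simp)
    have h3 := h1.mul h2.exp
    exact h3.congr_deriv (by ring)
  have hanti : Antitone f := antitone_of_deriv_nonpos (fun x => (hd x).differentiableAt) (by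
    intro x
    rw [(hd x).deriv]
    nlinarith [sq_nonneg x, Real.exp_pos (x + x ^ 2 / 2)])
  have h1 : f b ≤ f 0 := hanti hb
  have h2 : f 0 = 1 := by simp [f]
  rw [h2] at h1
  have h3 : (1 - b) * Real.exp (b + b ^ 2 / 2) ≤ 1 := h1
  have h4 : Real.exp (-(b ^ 2 / 2) - b) = (Real.exp (b + b ^ 2 / 2))⁻¹ := by
    rw [← Real.exp_neg]
    congr 1
    ring
  rw [h4, ← one_div, le_div_iff₀ (Real.exp_pos _)]
  exact h3

end Pool.Agent.Helper77K9.SV
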