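import Pool.Agent.Helper77K9.SV.Vec

/-! The rank one steps. -/

set_option autoImplicit false

open MeasureTheory ProbabilityTheory Set
open scoped ENNReal NNReal RealInnerProductSpace

namespace Pool.Agent.Helper77K9.SV

variable {n : ℕ}

/-- The determinant of the rows. -/
noncomputable def D (n : ℕ) : EE n [⋀^Fin n]→ₗ[ℝ] ℝ := (EuclideanSpace.basisFun (Fin n) ℝ).toBasis.det

/-- There is a unit vector orthogonal to all but one of `n` vectors. -/
theorem exists_normal (A : Fin n → EE n) (k : Fin n) :
    ∃ ν : EE n, ‖ν‖ = 1 ∧ ∀ j, j ≠ k → ⟪ν, A j⟫ = 0 := by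
  classical
  let W : Submodule ℝ (EE n) := Submodule.span ℝ ((Finset.univ.erase k).image A : Set (EE n))
  have hW : Module.finrank ℝ W < n := by
    have h1 : Module.finrank ℝ W ≤ ((Finset.univ.erase k).image A).card :=
      finrank_span_finset_le_card _
    have h2 : ((Finset.univ.erase k).image A).card ≤ (Finset.univ.erase k).card :=
      Finset.card_image_le
    rw [Finset.card_erase_of_mem (Finset.mem_univ k), Finset.card_univ, Fintype.card_fin] at h2
    have := k.pos
    omega
  have hne : Wᗮ ≠ ⊥ := by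
    intro h
    have h1 := Submodule.finrank_add_finrank_orthogonal W
    rw [h, finrank_bot, add_zero, finrank_euclideanSpace_fin] at h1
    omega
  obtain ⟨x, hx, hx0⟩ := Submodule.exists_mem_ne_zero_of_ne_bot hne
  refine ⟨(‖x‖)⁻¹ • x, ?_, ?_⟩
  · rw [norm_smul, norm_inv, norm_norm]
    exact inv_mul_cancel₀ (norm_ne_zero_iff.2 hx0)
  · intro j hj
    have h1 : A j ∈ W := Submodule.subset_span (by
      simp only [Finset.coe_image, mem_image, Finset.mem_coe]
      exact ⟨j, Finset.mem_erase.2 ⟨hj, Finset.mem_univ j⟩, rfl⟩)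
    rw [inner_smul_left, Submodule.inner_left_of_mem_orthogonal h1 hx, mul_zero]

/-- Vectors which are all orthogonal to a unit vector have determinant zero. -/
theorem D_eq_zero (v : Fin n → EE n) (ν : EE n) (hν : ‖ν‖ = 1) (h : ∀ j, ⟪ν, v j⟫ = 0) :
    D n v = 0 := by
  apply AlternatingMap.map_linearDependent
  intro hli
  have h1 := hli.span_eq_top_of_card_eq_finrank' (by simp)
  have h2 : (⊤ : Submodule ℝ (EE n)) ≤ (ℝ ∙ ν)ᗮ := by
    rw [← h1, Submodule.span_le]
    rintro _ ⟨j, rfl⟩
    exact Submodule.mem_orthogonal_singleton_iff_inner_right.2 (h j)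
  have h3 := Submodule.mem_orthogonal_singleton_iff_inner_right.1 (h2 (Submodule.mem_top (x := ν)))
  rw [real_inner_self_eq_norm_sq, hν] at h3
  norm_num at h3

theorem D_update (A : Fin n → EE n) (k : Fin n) (ν : EE n) (hν : ‖ν‖ = 1)
    (h : ∀ j, j ≠ k → ⟪ν, A j⟫ = 0) (p : EE n) (hp : ⟪ν, p⟫ = 0) (r : ℝ) :
    D n (Function.update A k (p + r • ν)) = r * D n (Function.update A k ν) := by
  rw [AlternatingMap.map_update_add, AlternatingMap.map_update_smul, smul_eq_mul,
    D_eq_zero _ ν hν ?_, zero_add]
  intro j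
  by_cases hj : j = k
  · subst hj
    rw [Function.update_self]
    exact hp
  · rw [Function.update_of_ne hj]
    exact h j hj

theorem sum_update (A : Fin n → EE n) (k : Fin n) (p v : EE n) (w : Fin n → ℝ) :
    ∑ i, w i • Function.update A k (p + v) i = ∑ i, w i • Function.update A k p i + w k • v := by
  classical
  rw [← Finset.add_sum_erase _ _ (Finset.mem_univ k), ← Finset.add_sum_erase _ _ (Finset.mem_univ k),
    Function.update_self, Function.update_self]
  have h : ∑ x ∈ Finset.univ.erase k, w x • Function.update A k (p + v) x =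
      ∑ x ∈ Finset.univ.erase k, w x • Function.update A k p x := by
    refine Finset.sum_congr rfl fun j hj => ?_
    rw [Function.update_of_ne (Finset.ne_of_mem_erase hj),
      Function.update_of_ne (Finset.ne_of_mem_erase hj)]
  rw [h, smul_add]
  abel

theorem norm_sum_update (A : Fin n → EE n) (k : Fin n) (ν : EE n) (hν : ‖ν‖ = 1)
    (h : ∀ j, j ≠ k → ⟪ν, A j⟫ = 0) (p : EE n) (hp : ⟪ν, p⟫ = 0) (r : ℝ) (w : Fin n → ℝ) :
    ‖∑ i, w i • Function.update A k (p + r • ν) i‖ ^ 2 =
      ‖∑ i, w i • Function.update A k p i‖ ^ 2 + w k ^ 2 * r ^ 2 := by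
  rw [sum_update]
  set x := ∑ i, w i • Function.update A k p i with hx
  have hx0 : ⟪x, ν⟫ = 0 := by
    rw [hx, sum_inner]
    refine Finset.sum_eq_zero fun j _ => ?_
    rw [inner_smul_left, real_inner_comm]
    by_cases hj : j = k
    · subst hj
      rw [Function.update_self, hp, mul_zero]
    · rw [Function.update_of_ne hj, h j hj, mul_zero]
  rw [norm_add_sq_real, inner_smul_right, inner_smul_right, hx0, norm_smul, norm_smul, hν]
  simp only [Real.norm_eq_abs, mul_zero, add_zero, mul_one, mul_pow, sq_abs]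

/-- The set of the families whose Gram matrix is at least the diagonal matrix `q`. -/
def GS (q : Fin n → ℝ) : Set (Fin n → EE n) :=
  {A | ∀ w : Fin n → ℝ, ∑ i, q i * w i ^ 2 ≤ ‖∑ i, w i • A i‖ ^ 2}

theorem isClosed_GS (q : Fin n → ℝ) : IsClosed (GS q) := by
  unfold GS
  rw [show {A : Fin n → EE n | ∀ w : Fin n → ℝ, ∑ i, q i * w i ^ 2 ≤ ‖∑ i, w i • A i‖ ^ 2} =
    ⋂ w : Fin n → ℝ, {A | ∑ i, q i * w i ^ 2 ≤ ‖∑ i, w i • A i‖ ^ 2} by ext; simp]
  refine isClosed_iInter fun w => isClosed_le continuous_const ?_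
  fun_prop

theorem D_eq (A : Fin n → EE n) : D n A = (Matrix.of fun i j => A i j).det := by
  rw [← Matrix.det_transpose]
  unfold D
  rw [Module.Basis.det_apply]
  congr 1

theorem continuous_D : Continuous fun A : Fin n → EE n => D n A := by
  simp only [D_eq]
  refine Continuous.matrix_det ?_
  refine continuous_matrix fun i j => ?_
  simp only [Matrix.of_apply]
  fun_prop

/-- The integrand. -/
noncomputable def intg (q y : Fin n → ℝ) (A : Fin n → EE n) : ℝ≥0∞ :=
  (GS q).indicator (fun A => ENNReal.ofReal (|D n A| *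
    Real.exp (-(‖∑ i, y i • A i‖ ^ 2 / 2)))) A

theorem measurable_intg (q y : Fin n → ℝ) : Measurable (intg q y) := by
  refine Measurable.indicator ?_ (isClosed_GS q).measurableSet
  refine Measurable.ennreal_ofReal (Continuous.measurable ?_)
  have := continuous_D (n := n)
  fun_prop

/-- membership in the set `GS` for an updated family -/
theorem mem_GS_update (q : Fin n → ℝ) (A : Fin n → EE n) (k : Fin n) (ν : EE n) (hν : ‖ν‖ = 1)
    (h : ∀ j, j ≠ k → ⟪ν, A j⟫ = 0) (p : EE n) (hp : ⟪ν, p⟫ = 0) (r : ℝ) :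
    Function.update A k (p + r • ν) ∈ GS q ↔ ∀ w : Fin n → ℝ, ∑ i, q i * w i ^ 2 ≤
      ‖∑ i, w i • Function.update A k p i‖ ^ 2 + w k ^ 2 * r ^ 2 := by
  unfold GS
  simp only [mem_ofPred_eq, norm_sum_update A k ν hν h p hp r]

theorem intg_update (q y : Fin n → ℝ) (A : Fin n → EE n) (k : Fin n) (ν : EE n) (hν : ‖ν‖ = 1)
    (h : ∀ j, j ≠ k → ⟪ν, A j⟫ = 0) (p : EE n) (hp : ⟪ν, p⟫ = 0) (r : ℝ) :
    intg q y (Function.update A k (p + r • ν)) =
      (GS q).indicator (fun _ => ENNReal.ofReal (|r * D n (Function.update A k ν)| *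
        Real.exp (-((‖∑ i, y i • Function.update A k p i‖ ^ 2 + y k ^ 2 * r ^ 2) / 2))))
        (Function.update A k (p + r • ν)) := by
  unfold intg
  by_cases hm : Function.update A k (p + r • ν) ∈ GS q
  · rw [indicator_of_mem hm, indicator_of_mem hm, D_update A k ν hν h p hp r,
      norm_sum_update A k ν hν h p hp r]
  · rw [indicator_of_notMem hm, indicator_of_notMem hm]

theorem update_q_sum (q : Fin n → ℝ) (k : Fin n) (τ : ℝ) (w : Fin n → ℝ) :
    ∑ i, Function.update q k (q k + τ) i * w i ^ 2 = ∑ i, q i * w i ^ 2 + τ * w k ^ 2 := by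
  classical
  rw [← Finset.add_sum_erase _ _ (Finset.mem_univ k),
    ← Finset.add_sum_erase (f := fun i => q i * w i ^ 2) _ (Finset.mem_univ k),
    Function.update_self]
  have h : ∑ x ∈ Finset.univ.erase k, Function.update q k (q k + τ) x * w x ^ 2 =
      ∑ x ∈ Finset.univ.erase k, q x * w x ^ 2 := by
    refine Finset.sum_congr rfl fun j hj => ?_
    rw [Function.update_of_ne (Finset.ne_of_mem_erase hj)]
  rw [h]
  ring

/-- The Gaussian measure on families of `n` vectors. -/
noncomputable abbrev MM (n : ℕ) : Measure (Fin n → EE n) :=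
  Measure.pi fun _ : Fin n => stdGaussian (EE n)

/-- The total integral. -/
noncomputable def TT (B : Fin n → EE n) (q y : Fin n → ℝ) : ℝ≥0∞ :=
  ∫⁻ G, intg q y (G + B) ∂(MM n)

theorem step (B : Fin n → EE n) (q y : Fin n → ℝ) (k : Fin n) {τ : ℝ} (hτ : 0 ≤ τ) :
    TT B q y ≤ ENNReal.ofReal (Real.exp (τ / 2 * (1 + y k ^ 2))) *
      TT B (Function.update q k (q k + τ)) y := by
  classical
  unfold TT
  set q' := Function.update q k (q k + τ) with hq'
  have hm : ∀ q : Fin n → ℝ, Measurable fun G : Fin n → EE n => intg q y (G + B) := fun q =>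
    (measurable_intg q y).comp (measurable_add_const B)
  rw [← lintegral_const_mul _ (hm q')]
  refine lintegral_le_of_lmarginal_le {k} (hm q) ((hm q').const_mul _) ?_
  rw [lmarginal_singleton, lmarginal_singleton]
  intro G
  simp only
  set A : Fin n → EE n := G + B with hA
  have harg : ∀ a : EE n, Function.update G k a + B = Function.update A k (a + B k) := by
    intro a
    ext1 j
    by_cases hj : j = k
    · subst hj; simp
    · simp [Function.update_of_ne hj, hA]
  simp only [harg]
  obtain ⟨ν, hν, hA0⟩ := exists_normal A k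
  have hmu : Measurable fun a : EE n => Function.update A k a := measurable_update A
  have hm2 : ∀ q : Fin n → ℝ, Measurable fun a : EE n => intg q y (Function.update A k a) :=
    fun q => (measurable_intg q y).comp hmu
  have hm3 : Measurable fun a : EE n => intg q' y (Function.update A k (a + B k)) :=
    (hm2 q').comp (measurable_add_const (B k))
  rw [lintegral_const_mul _ hm3]
  have key := shift_vec ν hν (fun a => intg q y (Function.update A k a))
    (fun a => intg q' y (Function.update A k a)) (hm2 q) (hm2 q') (B k) hτ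
    (ENNReal.ofReal (Real.exp (τ / 2 * y k ^ 2))) ?_ ?_ ?_
  · refine key.trans (le_of_eq ?_)
    rw [← ENNReal.ofReal_mul (Real.exp_pos _).le, ← Real.exp_add]
    congr 3
    ring
  · -- evenness
    intro p hp r
    rw [intg_update q y A k ν hν hA0 p hp, intg_update q y A k ν hν hA0 p hp]
    have hiff : (Function.update A k (p + (-r) • ν) ∈ GS q) ↔
        (Function.update A k (p + r • ν) ∈ GS q) := by
      rw [mem_GS_update q A k ν hν hA0 p hp, mem_GS_update q A k ν hν hA0 p hp, neg_sq]
    by_cases hmem : Function.update A k (p + r • ν) ∈ GS q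
    · rw [indicator_of_mem hmem, indicator_of_mem (hiff.2 hmem), neg_sq, neg_mul, abs_neg]
    · rw [indicator_of_notMem hmem, indicator_of_notMem (fun h => hmem (hiff.1 h))]
  · intro p hp r
    rw [intg_update q' y A k ν hν hA0 p hp, intg_update q' y A k ν hν hA0 p hp]
    have hiff : (Function.update A k (p + (-r) • ν) ∈ GS q') ↔
        (Function.update A k (p + r • ν) ∈ GS q') := by
      rw [mem_GS_update q' A k ν hν hA0 p hp, mem_GS_update q' A k ν hν hA0 p hp, neg_sq]
    by_cases hmem : Function.update A k (p + r • ν) ∈ GS q'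
    · rw [indicator_of_mem hmem, indicator_of_mem (hiff.2 hmem), neg_sq, neg_mul, abs_neg]
    · rw [indicator_of_notMem hmem, indicator_of_notMem (fun h => hmem (hiff.1 h))]
  · intro p hp r hr
    have hpos : 0 ≤ r ^ 2 + τ := by positivity
    have hs2 : √(r ^ 2 + τ) ^ 2 = r ^ 2 + τ := Real.sq_sqrt hpos
    rw [intg_update q y A k ν hν hA0 p hp, intg_update q' y A k ν hν hA0 p hp]
    by_cases hmem : Function.update A k (p + r • ν) ∈ GS q
    · have hmem' : Function.update A k (p + √(r ^ 2 + τ) • ν) ∈ GS q' := by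
        rw [mem_GS_update q' A k ν hν hA0 p hp]
        rw [mem_GS_update q A k ν hν hA0 p hp] at hmem
        intro w
        have h1 := hmem w
        rw [hq', update_q_sum, hs2]
        nlinarith
      rw [indicator_of_mem hmem, indicator_of_mem hmem', hs2, ← ENNReal.ofReal_mul (by positivity),
        ← ENNReal.ofReal_mul (by positivity), ← ENNReal.ofReal_mul (by positivity)]
      apply ENNReal.ofReal_le_ofReal
      apply le_of_eq
      rw [abs_mul, abs_mul, abs_of_pos hr, abs_of_nonneg (Real.sqrt_nonneg _)]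
      have h1 : Real.exp (-((‖∑ i, y i • Function.update A k p i‖ ^ 2 + y k ^ 2 * r ^ 2) / 2)) =
          Real.exp (τ / 2 * y k ^ 2) *
          Real.exp (-((‖∑ i, y i • Function.update A k p i‖ ^ 2 + y k ^ 2 * (r ^ 2 + τ)) / 2)) := by
        rw [← Real.exp_add]
        congr 1
        ring
      rw [h1]
      ring
    · rw [indicator_of_notMem hmem, zero_mul]
      exact zero_le

theorem steps (B : Fin n → EE n) (y : Fin n → ℝ) {τ : ℝ} (hτ : 0 ≤ τ) (S : Finset (Fin n)) :
    TT B 0 y ≤ ENNReal.ofReal (Real.exp (τ / 2 * ∑ k ∈ S, (1 + y k ^ 2))) *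
      TT B (fun i => if i ∈ S then τ else 0) y := by
  classical
  induction S using Finset.induction_on with
  | empty =>
    simp only [Finset.sum_empty, mul_zero, Real.exp_zero, ENNReal.ofReal_one, one_mul,
      Finset.notMem_empty, if_false]
    exact le_rfl
  | insert k S hk ih =>
    refine ih.trans ?_
    have h1 := step B (fun i => if i ∈ S then τ else 0) y k hτ
    have h2 : Function.update (fun i => if i ∈ S then τ else 0) k
        ((fun i => if i ∈ S then τ else 0) k + τ) = fun i => if i ∈ insert k S then τ else 0 := by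
      ext i
      by_cases hi : i = k
      · subst hi
        simp [hk]
      · simp [Finset.mem_insert, hi]
    rw [h2] at h1
    rw [Finset.sum_insert hk, mul_add, add_comm, Real.exp_add,
      ENNReal.ofReal_mul (Real.exp_pos _).le, mul_assoc]
    exact mul_le_mul_right h1 _

/-- The result of all the steps. -/
theorem all_steps (B : Fin n → EE n) (y : Fin n → ℝ) {τ : ℝ} (hτ : 0 ≤ τ) :
    ENNReal.ofReal (Real.exp (-(τ / 2 * (n + ∑ k, y k ^ 2)))) * TT B 0 y ≤
      TT B (fun _ => τ) y := by
  have h := steps B y hτ Finset.univ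
  simp only [Finset.mem_univ, if_true] at h
  rw [Finset.sum_add_distrib] at h
  simp only [Finset.sum_const, Finset.card_univ, Fintype.card_fin, nsmul_eq_mul, mul_one] at h
  calc _ ≤ ENNReal.ofReal (Real.exp (-(τ / 2 * (n + ∑ k, y k ^ 2)))) *
        (ENNReal.ofReal (Real.exp (τ / 2 * (n + ∑ k, y k ^ 2))) * TT B (fun _ => τ) y) :=
        mul_le_mul_right h _
    _ = TT B (fun _ => τ) y := by
        rw [← mul_assoc, ← ENNReal.ofReal_mul (Real.exp_pos _).le, ← Real.exp_add,
          neg_add_cancel, Real.exp_zero, ENNReal.ofReal_one, one_mul]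

end Pool.Agent.Helper77K9.SV
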