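import Pool.Agent.Helper77K9.SV.OneD

/-! Vector valued version of the shift inequality. -/

set_option autoImplicit false

open MeasureTheory ProbabilityTheory Set
open scoped ENNReal NNReal RealInnerProductSpace

namespace Pool.Agent.Helper77K9.SV

variable {n : ℕ}

/-- The Euclidean space. -/
abbrev EE (n : ℕ) : Type := EuclideanSpace ℝ (Fin n)

theorem exists_onb (ν : EE n) (hν : ‖ν‖ = 1) (i : Fin n) :
    ∃ b : OrthonormalBasis (Fin n) ℝ (EE n), b i = ν := by
  have h1 : Orthonormal ℝ (({i} : Set (Fin n)).domRestrict fun _ : Fin n => ν) := by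
    refine ⟨fun _ => hν, ?_⟩
    rintro ⟨a, ha⟩ ⟨c, hc⟩ hac
    exact absurd (Subtype.ext ((mem_singleton_iff.1 ha).trans (mem_singleton_iff.1 hc).symm)) hac
  obtain ⟨b, hb⟩ := h1.exists_orthonormalBasis_extension_of_card_eq (by simp)
  exact ⟨b, hb i rfl⟩

/-- Integration in an orthonormal basis. -/
theorem lintegral_std_onb (b : OrthonormalBasis (Fin n) ℝ (EE n)) (F : EE n → ℝ≥0∞)
    (hF : Measurable F) :
    ∫⁻ g, F g ∂(stdGaussian (EE n)) =
      ∫⁻ x : Fin n → ℝ, F (∑ i, x i • b i) ∂(Measure.pi fun _ : Fin n => gaussianReal 0 1) := by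
  rw [stdGaussian_eq_map_pi_orthonormalBasis b, lintegral_map hF (by fun_prop)]

theorem update_sum (b : OrthonormalBasis (Fin n) ℝ (EE n)) (i : Fin n) (x : Fin n → ℝ) (r : ℝ) :
    ∑ j, Function.update x i r j • b j = r • b i + ∑ j ∈ Finset.univ.erase i, x j • b j := by
  rw [← Finset.add_sum_erase _ _ (Finset.mem_univ i), Function.update_self]
  congr 1
  refine Finset.sum_congr rfl fun j hj => ?_
  rw [Function.update_of_ne (Finset.ne_of_mem_erase hj)]

theorem inner_erase (b : OrthonormalBasis (Fin n) ℝ (EE n)) (i : Fin n) (x : Fin n → ℝ) :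
    ⟪b i, ∑ j ∈ Finset.univ.erase i, x j • b j⟫ = 0 := by
  rw [inner_sum]
  refine Finset.sum_eq_zero fun j hj => ?_
  rw [inner_smul_right, b.inner_eq_zero (Finset.ne_of_mem_erase hj).symm, mul_zero]

/-- General principle: an inequality between one dimensional integrals in the direction `ν`. -/
theorem line_ineq (ν : EE n) (hν : ‖ν‖ = 1) (F H : EE n → ℝ≥0∞) (hF : Measurable F)
    (hH : Measurable H) (B : EE n)
    (h : ∀ p : EE n, ⟪ν, p⟫ = 0 → ∀ β : ℝ, ∫⁻ x, F (p + (x + β) • ν) ∂(gaussianReal 0 1) ≤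
      ∫⁻ x, H (p + (x + β) • ν) ∂(gaussianReal 0 1)) :
    ∫⁻ g, F (g + B) ∂(stdGaussian (EE n)) ≤ ∫⁻ g, H (g + B) ∂(stdGaussian (EE n)) := by
  classical
  have hn : 0 < n := by
    rcases Nat.eq_zero_or_pos n with h0 | h0
    · subst h0
      have : ν = 0 := Subsingleton.elim _ _
      rw [this, norm_zero] at hν
      exact absurd hν (by norm_num)
    · exact h0
  let i : Fin n := ⟨0, hn⟩
  obtain ⟨b, hb⟩ := exists_onb ν hν i
  rw [lintegral_std_onb b (fun g => F (g + B)) (hF.comp (measurable_add_const B)),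
    lintegral_std_onb b (fun g => H (g + B)) (hH.comp (measurable_add_const B))]
  have hm : Measurable fun x : Fin n → ℝ => ∑ i, x i • b i := by fun_prop
  refine lintegral_le_of_lmarginal_le {i} ?_ ?_ ?_
  · exact hF.comp (hm.add_const B)
  · exact hH.comp (hm.add_const B)
  rw [lmarginal_singleton, lmarginal_singleton]
  intro x
  simp only
  set p : EE n := ∑ j ∈ Finset.univ.erase i, x j • b j + (B - ⟪ν, B⟫ • ν) with hp
  have hp0 : ⟪ν, p⟫ = 0 := by
    rw [hp, inner_add_right, ← hb, inner_erase, inner_sub_right, inner_smul_right,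
      b.inner_eq_one]
    ring
  have harg : ∀ r : ℝ, ∑ j, Function.update x i r j • b j + B = p + (r + ⟪ν, B⟫) • ν := by
    intro r
    rw [update_sum, hb, hp, add_smul]
    abel
  simp only [harg]
  exact h p hp0 _

/-- The vector valued shift inequality. -/
theorem shift_vec (ν : EE n) (hν : ‖ν‖ = 1) (F H : EE n → ℝ≥0∞) (hF : Measurable F)
    (hH : Measurable H) (B : EE n) {τ : ℝ} (hτ : 0 ≤ τ) (C : ℝ≥0∞)
    (heF : ∀ p : EE n, ⟪ν, p⟫ = 0 → ∀ r : ℝ, F (p + (-r) • ν) = F (p + r • ν))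
    (heH : ∀ p : EE n, ⟪ν, p⟫ = 0 → ∀ r : ℝ, H (p + (-r) • ν) = H (p + r • ν))
    (h : ∀ p : EE n, ⟪ν, p⟫ = 0 → ∀ r : ℝ, 0 < r → F (p + r • ν) * ENNReal.ofReal (√(r ^ 2 + τ)) ≤
      C * (H (p + √(r ^ 2 + τ) • ν) * ENNReal.ofReal r)) :
    ∫⁻ g, F (g + B) ∂(stdGaussian (EE n)) ≤
      C * ENNReal.ofReal (Real.exp (τ / 2)) * ∫⁻ g, H (g + B) ∂(stdGaussian (EE n)) := by
  have hHB : Measurable fun g => H (g + B) := hH.comp (measurable_add_const B)
  rw [← lintegral_const_mul _ hHB]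
  refine line_ineq ν hν F (fun g => C * ENNReal.ofReal (Real.exp (τ / 2)) * H g) hF
    (hH.const_mul _) B ?_
  intro p hp β
  have hm : Measurable fun s : ℝ => p + s • ν := by fun_prop
  have hHm : Measurable fun s : ℝ => H (p + (s + β) • ν) :=
    hH.comp (hm.comp (measurable_add_const β))
  rw [lintegral_const_mul _ hHm]
  exact shift_ineq (fun s => F (p + s • ν)) (fun s => H (p + s • ν)) (hF.comp hm) (hH.comp hm)
    (heF p hp) (heH p hp) hτ C (fun r hr => h p hp r hr) β

end Pool.Agent.Helper77K9.SV
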